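import Pool.Agent.Work.MP_db5cd1_nt.Per

/-! The second moment over the modulus. -/

namespace Pool.Agent.Work.MP_db5cd1_nt

open Finset

/-- number of `j < k²` with `d k² ∣ 1 + j m` -/
def fc (k d m : ℕ) : ℕ := ((range (k ^ 2)).filter (fun j => d * k ^ 2 ∣ 1 + j * m)).card

/-- the centred indicator on the progression `a + d t` -/
noncomputable def hh (k d a t : ℕ) : ℝ := (fc k d (a + d * t) : ℝ) - 1 / d

lemma fc_mod (k d a t : ℕ) : fc k d (a + d * (t % k ^ 2)) = fc k d (a + d * t) := by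
  unfold fc
  congr 1
  refine filter_congr fun j _ => ?_
  have h : 1 + j * (a + d * t) = 1 + j * (a + d * (t % k ^ 2)) + (d * k ^ 2) * (j * (t / k ^ 2)) := by
    conv_lhs => rw [← Nat.mod_add_div t (k ^ 2)]
    ring
  rw [h]
  exact (Nat.dvd_add_left (Dvd.intro _ rfl)).symm

lemma fc_le_one {k d : ℕ} (m : ℕ) : fc k d m ≤ 1 := by
  unfold fc
  rw [card_le_one]
  intro j hj j' hj'
  rw [mem_filter, mem_range] at hj hj'
  have h1 : k ^ 2 ∣ 1 + j * m := (Dvd.intro_left _ rfl).trans hj.2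
  have h2 : k ^ 2 ∣ 1 + j' * m := (Dvd.intro_left _ rfl).trans hj'.2
  have hc : Nat.Coprime (k ^ 2) m := by
    have h3 : Nat.gcd (k ^ 2) m ∣ 1 := by
      have h4 : Nat.gcd (k ^ 2) m ∣ 1 + j * m := (Nat.gcd_dvd_left _ _).trans h1
      exact (Nat.dvd_add_left ((Nat.gcd_dvd_right _ _).trans (Dvd.intro_left _ rfl))).1 h4
    exact Nat.dvd_one.1 h3
  have h3 : 1 + j * m ≡ 1 + j' * m [MOD k ^ 2] :=
    ((Nat.modEq_zero_iff_dvd).2 h1).trans ((Nat.modEq_zero_iff_dvd).2 h2).symm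
  have h4 : j * m ≡ j' * m [MOD k ^ 2] := Nat.ModEq.add_left_cancel' 1 h3
  have h5 : j ≡ j' [MOD k ^ 2] := Nat.ModEq.cancel_right_of_coprime hc h4
  exact Nat.ModEq.eq_of_lt_of_lt h5 hj.1 hj'.1

/-- a linear congruence has one solution -/
lemma card_sol {q b : ℕ} (hq : 0 < q) (hb : b.Coprime q) (c : ℕ) :
    ((range q).filter (fun t => q ∣ c + b * t)).card = 1 := by
  rcases Nat.eq_or_lt_of_le (Nat.succ_le_of_lt hq) with h1 | h1
  · have : q = 1 := h1.symm
    subst this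
    simp
  rw [card_eq_one]
  obtain ⟨u, -, hu⟩ := Nat.exists_mul_mod_eq_one_of_coprime hb h1
  have huM : b * u ≡ 1 [MOD q] := by
    unfold Nat.ModEq
    rw [hu, Nat.mod_eq_of_lt h1]
  refine ⟨(u * (q - 1) * c) % q, ?_⟩
  have hex : q ∣ c + b * ((u * (q - 1) * c) % q) := by
    rw [← Nat.modEq_zero_iff_dvd]
    have h2 : c + b * ((u * (q - 1) * c) % q) ≡ c + b * (u * (q - 1) * c) [MOD q] :=
      Nat.ModEq.add_left _ (Nat.ModEq.mul_left _ (Nat.mod_modEq _ _))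
    refine h2.trans ?_
    have h3 : c + b * (u * (q - 1) * c) = c + (b * u) * ((q - 1) * c) := by ring
    rw [h3]
    refine (Nat.ModEq.add_left _ (Nat.ModEq.mul_right _ huM)).trans ?_
    have h4 : c + 1 * ((q - 1) * c) = q * c := by
      obtain ⟨q', rfl⟩ : ∃ q', q = q' + 1 := ⟨q - 1, by omega⟩
      simp only [Nat.add_sub_cancel]
      ring
    rw [h4, Nat.modEq_zero_iff_dvd]
    exact Dvd.intro _ rfl
  ext t
  rw [mem_filter, mem_range, mem_singleton]
  constructor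
  · rintro ⟨ht, h2⟩
    have h3 : c + b * t ≡ c + b * ((u * (q - 1) * c) % q) [MOD q] :=
      ((Nat.modEq_zero_iff_dvd).2 h2).trans ((Nat.modEq_zero_iff_dvd).2 hex).symm
    have h4 := Nat.ModEq.add_left_cancel' c h3
    have h5 := Nat.ModEq.cancel_left_of_coprime (Nat.coprime_comm.1 hb) h4
    exact Nat.ModEq.eq_of_lt_of_lt h5 ht (Nat.mod_lt _ hq)
  · rintro rfl
    exact ⟨Nat.mod_lt _ hq, hex⟩

/-- counting solutions of a linear congruence in an initial interval -/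
lemma card_sol_range {d b : ℕ} (hd : 0 < d) (hb : b.Coprime d) (c n : ℕ) :
    |(((range n).filter (fun t => d ∣ c + b * t)).card : ℝ) - n / d| ≤ 1 := by
  have hF : ∀ t, (if d ∣ c + b * (t + d) then (1 : ℝ) else 0) = if d ∣ c + b * t then 1 else 0 := by
    intro t
    have h : c + b * (t + d) = c + b * t + d * b := by ring
    rw [h]
    simp only [Nat.dvd_add_left (Dvd.intro b rfl : d ∣ d * b)]
  have h1 := sum_range_split (Q := d) (fun t => if d ∣ c + b * t then (1 : ℝ) else 0) hF n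
  have h2 : ∀ n, ∑ t ∈ range n, (if d ∣ c + b * t then (1 : ℝ) else 0) =
      (((range n).filter (fun t => d ∣ c + b * t)).card : ℝ) := by
    intro n
    rw [sum_boole]
  rw [h2, h2, h2, card_sol hd hb c] at h1
  have h3 : ((range (n % d)).filter (fun t => d ∣ c + b * t)).card ≤ 1 := by
    rw [← card_sol hd hb c]
    exact card_le_card (filter_subset_filter _ (range_subset_range.2 (Nat.mod_lt _ hd).le))
  have h4 : (((range (n % d)).filter (fun t => d ∣ c + b * t)).card : ℝ) ≤ 1 := by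
    exact_mod_cast h3
  have h5 : (0 : ℝ) ≤ (((range (n % d)).filter (fun t => d ∣ c + b * t)).card : ℝ) :=
    Nat.cast_nonneg _
  have h6 : ((n / d : ℕ) : ℝ) ≤ n / d := Nat.cast_div_le
  have h7 : (n : ℝ) / d ≤ (n / d : ℕ) + 1 := by
    rw [div_le_iff₀ (by exact_mod_cast hd)]
    have := Nat.lt_div_mul_add hd (a := n)
    have h8 : n ≤ (n / d + 1) * d := by
      have := Nat.div_add_mod n d
      have := Nat.mod_lt n hd
      nlinarith
    exact_mod_cast h8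
  rw [h1, abs_le]
  push_cast
  constructor <;> linarith

lemma sum_fc {k d a : ℕ} (hk : k.Prime) (hdk : d.Coprime k) :
    ∑ t ∈ range (k ^ 2), fc k d (a + d * t) =
      ((range (k ^ 2)).filter (fun j => ¬ k ∣ j ∧ d ∣ 1 + a * j)).card := by
  have hk2 : 0 < k ^ 2 := pow_pos hk.pos 2
  unfold fc
  simp_rw [card_filter]
  rw [sum_comm]
  refine sum_congr rfl fun j _ => ?_
  rw [← card_filter]
  split_ifs with h
  · obtain ⟨h1, h2⟩ := h
    have hcop : (j * d).Coprime (k ^ 2) := by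
      refine Nat.Coprime.pow_right 2 (Nat.Coprime.mul_left ?_ hdk)
      exact ((Nat.Prime.coprime_iff_not_dvd hk).2 h1).symm
    refine Eq.trans (congrArg Finset.card (filter_congr fun t _ => ?_)) (card_sol hk2 hcop (1 + a * j))
    have h3 : 1 + j * (a + d * t) = 1 + a * j + j * d * t := by ring
    rw [h3]
    constructor
    · intro h4
      exact (Dvd.intro_left _ rfl).trans h4
    · intro h4
      refine Nat.Coprime.mul_dvd_of_dvd_of_dvd (Nat.Coprime.pow_right 2 hdk) ?_ h4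
      exact Dvd.dvd.add h2 (by rw [mul_assoc, mul_comm, mul_assoc]; exact Dvd.intro _ rfl)
  · rw [card_eq_zero, filter_eq_empty_iff]
    intro t _ h4
    apply h
    have h3 : 1 + j * (a + d * t) = 1 + a * j + d * (j * t) := by ring
    refine ⟨fun hkj => ?_, ?_⟩
    · have h5 : k ∣ 1 + j * (a + d * t) :=
        ((dvd_pow_self k two_ne_zero).trans (Dvd.intro_left _ rfl)).trans h4
      have h6 : k ∣ 1 := (Nat.dvd_add_left (hkj.mul_right _)).1 h5
      exact hk.one_lt.ne' (Nat.dvd_one.1 h6)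
    · have h5 : d ∣ 1 + j * (a + d * t) := (Dvd.intro _ rfl).trans h4
      rw [h3] at h5
      exact (Nat.dvd_add_left (Dvd.intro _ rfl)).1 h5

lemma card_multiples_le {k : ℕ} :
    ((range (k ^ 2)).filter (fun j => k ∣ j)).card ≤ k := by
  calc ((range (k ^ 2)).filter (fun j => k ∣ j)).card ≤ ((range k).image (fun i => k * i)).card := by
        refine card_le_card fun j hj => ?_
        rw [mem_filter, mem_range] at hj
        obtain ⟨i, rfl⟩ := hj.2
        rw [mem_image]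
        refine ⟨i, mem_range.2 ?_, rfl⟩
        have := hj.1
        rw [pow_two] at this
        exact Nat.lt_of_mul_lt_mul_left this
    _ ≤ (range k).card := card_image_le
    _ = k := card_range k

lemma sum_fc_bounds {k d a : ℕ} (hk : k.Prime) (hd : 0 < d) (hdk : d < k) (ha : a.Coprime d) :
    (k : ℝ) ^ 2 / d - 1 - k ≤ ((∑ t ∈ range (k ^ 2), fc k d (a + d * t) : ℕ) : ℝ) ∧
      ((∑ t ∈ range (k ^ 2), fc k d (a + d * t) : ℕ) : ℝ) ≤ (k : ℝ) ^ 2 / d + 1 := by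
  have hcop : d.Coprime k := by
    rw [Nat.coprime_comm, Nat.Prime.coprime_iff_not_dvd hk]
    intro h
    exact absurd (Nat.le_of_dvd hd h) (by omega)
  rw [sum_fc hk hcop]
  have h1 := card_sol_range hd ha 1 (k ^ 2)
  rw [abs_le] at h1
  push_cast at h1
  have h2 : ((range (k ^ 2)).filter (fun j => ¬ k ∣ j ∧ d ∣ 1 + a * j)).card ≤
      ((range (k ^ 2)).filter (fun t => d ∣ 1 + a * t)).card := by
    refine card_le_card fun j hj => ?_
    rw [mem_filter] at hj ⊢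
    exact ⟨hj.1, hj.2.2⟩
  have h3 : ((range (k ^ 2)).filter (fun t => d ∣ 1 + a * t)).card ≤
      ((range (k ^ 2)).filter (fun j => ¬ k ∣ j ∧ d ∣ 1 + a * j)).card + k := by
    refine le_trans ?_ (Nat.add_le_add_left card_multiples_le _)
    refine le_trans (card_le_card ?_) (card_union_le _ _)
    intro j hj
    rw [mem_filter] at hj
    rw [mem_union, mem_filter, mem_filter]
    by_cases h : k ∣ j
    · exact Or.inr ⟨hj.1, h⟩
    · exact Or.inl ⟨hj.1, h, hj.2⟩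
  have h2' : (((range (k ^ 2)).filter (fun j => ¬ k ∣ j ∧ d ∣ 1 + a * j)).card : ℝ) ≤
      (((range (k ^ 2)).filter (fun t => d ∣ 1 + a * t)).card : ℝ) := by exact_mod_cast h2
  have h3' : (((range (k ^ 2)).filter (fun t => d ∣ 1 + a * t)).card : ℝ) ≤
      (((range (k ^ 2)).filter (fun j => ¬ k ∣ j ∧ d ∣ 1 + a * j)).card : ℝ) + k := by
    exact_mod_cast h3
  constructor <;> linarith [h1.1, h1.2]

lemma hh_mod (k d a t : ℕ) : hh k d a (t % k ^ 2) = hh k d a t := by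
  unfold hh
  rw [fc_mod]

lemma sum_hh (k d a : ℕ) : ∑ t ∈ range (k ^ 2), hh k d a t =
    ((∑ t ∈ range (k ^ 2), fc k d (a + d * t) : ℕ) : ℝ) - (k : ℝ) ^ 2 / d := by
  unfold hh
  rw [sum_sub_distrib, sum_const, card_range, nsmul_eq_mul]
  push_cast
  ring

lemma abs_sum_hh {k d a : ℕ} (hk : k.Prime) (hd : 0 < d) (hdk : d < k) (ha : a.Coprime d) :
    |∑ t ∈ range (k ^ 2), hh k d a t| ≤ 2 * k := by
  obtain ⟨h1, h2⟩ := sum_fc_bounds hk hd hdk ha
  have h3 : (1 : ℝ) ≤ k := by exact_mod_cast hk.one_lt.le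
  rw [sum_hh, abs_le]
  constructor <;> linarith

lemma abs_hh_le {k d a t : ℕ} (hd : 0 < d) : |hh k d a t| ≤ 1 := by
  have h1 : (fc k d (a + d * t) : ℝ) ≤ 1 := by exact_mod_cast fc_le_one _
  have h2 : (0 : ℝ) ≤ fc k d (a + d * t) := Nat.cast_nonneg _
  have h3 : (1 : ℝ) / d ≤ 1 := by
    rw [div_le_one (by exact_mod_cast hd)]
    exact_mod_cast hd
  have h4 : (0 : ℝ) ≤ 1 / d := by positivity
  unfold hh
  rw [abs_le]
  constructor <;> linarith

lemma sum_abs_hh {k d a : ℕ} (hk : k.Prime) (hd : 0 < d) (hdk : d < k) (ha : a.Coprime d) :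
    ∑ t ∈ range (k ^ 2), |hh k d a t| ≤ 3 * (k : ℝ) ^ 2 / d := by
  obtain ⟨-, h2⟩ := sum_fc_bounds hk hd hdk ha
  have hd0 : (0 : ℝ) < d := by exact_mod_cast hd
  have h3 : (1 : ℝ) ≤ k := by exact_mod_cast hk.one_lt.le
  have h4 : (d : ℝ) ≤ k := by exact_mod_cast hdk.le
  have h5 : 1 ≤ (k : ℝ) ^ 2 / d := by
    rw [le_div_iff₀ hd0]
    nlinarith
  calc ∑ t ∈ range (k ^ 2), |hh k d a t|
      ≤ ∑ t ∈ range (k ^ 2), ((fc k d (a + d * t) : ℝ) + 1 / d) := by
        refine sum_le_sum fun t _ => ?_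
        have h6 : (0 : ℝ) ≤ fc k d (a + d * t) := Nat.cast_nonneg _
        have h7 : (0 : ℝ) ≤ 1 / d := by positivity
        unfold hh
        rw [abs_le]
        constructor <;> linarith
    _ = ((∑ t ∈ range (k ^ 2), fc k d (a + d * t) : ℕ) : ℝ) + (k : ℝ) ^ 2 / d := by
        rw [sum_add_distrib, sum_const, card_range, nsmul_eq_mul]
        push_cast
        ring
    _ ≤ _ := by
        have : 3 * (k : ℝ) ^ 2 / d = 3 * ((k : ℝ) ^ 2 / d) := by ring
        linarith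

/-- the second moment on one progression -/
lemma moment_fixed (𝒦 : Finset ℕ) {A B : ℝ} (hA : 1 ≤ A) (d a T : ℕ)
    (h𝒦 : ∀ k ∈ 𝒦, k.Prime ∧ A ≤ k ∧ (k : ℝ) ≤ B) (hd : 0 < d) (hdA : (d : ℝ) < A)
    (ha : a.Coprime d) (hT : B ^ 2 ≤ T) :
    ∑ t ∈ range T, (∑ k ∈ 𝒦, hh k d a t) ^ 2 ≤
      𝒦.card * (6 * T / d) + (𝒦.card : ℝ) ^ 2 * (4 * T / A ^ 2 + 9 * B ^ 4 / (d : ℝ) ^ 2) := by
  classical
  have hd0 : (0 : ℝ) < d := by exact_mod_cast hd
  have hT0 : (0 : ℝ) ≤ T := Nat.cast_nonneg _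
  have hdk : ∀ k ∈ 𝒦, d < k := fun k hk => by
    have := (h𝒦 k hk).2.1
    exact_mod_cast lt_of_lt_of_le hdA this
  have hexp : ∑ t ∈ range T, (∑ k ∈ 𝒦, hh k d a t) ^ 2 =
      ∑ k ∈ 𝒦, ∑ k' ∈ 𝒦, ∑ t ∈ range T, hh k d a t * hh k' d a t := by
    have : ∀ t, (∑ k ∈ 𝒦, hh k d a t) ^ 2 = ∑ k ∈ 𝒦, ∑ k' ∈ 𝒦, hh k d a t * hh k' d a t := by
      intro t
      rw [pow_two, sum_mul_sum]
    simp_rw [this]
    rw [sum_comm]
    refine sum_congr rfl fun k _ => ?_
    rw [sum_comm]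
  rw [hexp]
  have hdiag : ∀ k ∈ 𝒦, ∑ t ∈ range T, hh k d a t * hh k d a t ≤ 6 * T / d := by
    intro k hk
    obtain ⟨hkp, hkA, hkB⟩ := h𝒦 k hk
    have hk2 : 0 < k ^ 2 := pow_pos hkp.pos 2
    have hk2' : (0 : ℝ) < (k : ℝ) ^ 2 := by exact_mod_cast hk2
    have h1 := sum_range_le hk2 (fun t => |hh k d a t|) (fun t => by
      rw [← hh_mod, Nat.add_mod_right, hh_mod]) (fun t => abs_nonneg _) T
    have h2 := sum_abs_hh hkp hd (hdk k hk) ha
    calc ∑ t ∈ range T, hh k d a t * hh k d a t ≤ ∑ t ∈ range T, |hh k d a t| := by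
          refine sum_le_sum fun t _ => ?_
          have h3 := abs_hh_le (k := k) (a := a) (t := t) hd
          have h4 := abs_nonneg (hh k d a t)
          rw [← abs_mul_abs_self]
          nlinarith
      _ ≤ (T / ((k ^ 2 : ℕ) : ℝ) + 1) * ∑ t ∈ range (k ^ 2), |hh k d a t| := h1
      _ ≤ (T / ((k ^ 2 : ℕ) : ℝ) + 1) * (3 * (k : ℝ) ^ 2 / d) := by gcongr
      _ ≤ (2 * T / (k : ℝ) ^ 2) * (3 * (k : ℝ) ^ 2 / d) := by
          have h5 : (1 : ℝ) ≤ T / (k : ℝ) ^ 2 := by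
            rw [le_div_iff₀ hk2', one_mul]
            refine le_trans ?_ hT
            have : (0 : ℝ) ≤ k := Nat.cast_nonneg _
            gcongr
          gcongr
          push_cast
          have : 2 * (T : ℝ) / (k : ℝ) ^ 2 = 2 * (T / (k : ℝ) ^ 2) := by ring
          linarith
      _ = 6 * T / d := by
          have : (k : ℝ) ^ 2 ≠ 0 := hk2'.ne'
          generalize (k : ℝ) ^ 2 = κ at *
          field_simp
          ring
  have hoff : ∀ k ∈ 𝒦, ∀ k' ∈ 𝒦, k ≠ k' → ∑ t ∈ range T, hh k d a t * hh k' d a t ≤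
      4 * T / A ^ 2 + 9 * B ^ 4 / (d : ℝ) ^ 2 := by
    intro k hk k' hk' hne
    obtain ⟨hkp, hkA, hkB⟩ := h𝒦 k hk
    obtain ⟨hkp', hkA', hkB'⟩ := h𝒦 k' hk'
    have hk0 : (0 : ℝ) < k := by linarith
    have hk0' : (0 : ℝ) < k' := by linarith
    have hc : (k ^ 2).Coprime (k' ^ 2) :=
      Nat.Coprime.pow 2 2 ((Nat.coprime_primes hkp hkp').2 hne)
    have h1 := abs_sum_mul_le hc (pow_pos hkp.pos 2) (pow_pos hkp'.pos 2) (hh k d a) (hh k' d a)
      (hh_mod k d a) (hh_mod k' d a) T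
    have h2 := abs_sum_hh hkp hd (hdk k hk) ha
    have h2' := abs_sum_hh hkp' hd (hdk k' hk') ha
    have h3 := sum_abs_hh hkp hd (hdk k hk) ha
    have h3' := sum_abs_hh hkp' hd (hdk k' hk') ha
    refine (le_abs_self _).trans (h1.trans (add_le_add ?_ ?_))
    · calc (T : ℝ) / (((k ^ 2 : ℕ) : ℝ) * ((k' ^ 2 : ℕ) : ℝ)) *
            (|∑ t ∈ range (k ^ 2), hh k d a t| * |∑ t ∈ range (k' ^ 2), hh k' d a t|)
          ≤ (T : ℝ) / (((k ^ 2 : ℕ) : ℝ) * ((k' ^ 2 : ℕ) : ℝ)) * ((2 * k) * (2 * k')) := by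
            gcongr
        _ = 4 * T / (k * k') := by
            push_cast
            field_simp
            ring
        _ ≤ 4 * T / A ^ 2 := by
            rw [pow_two]
            gcongr
    · calc (∑ t ∈ range (k ^ 2), |hh k d a t|) * ∑ t ∈ range (k' ^ 2), |hh k' d a t|
          ≤ (3 * (k : ℝ) ^ 2 / d) * (3 * (k' : ℝ) ^ 2 / d) := by
            gcongr
        _ ≤ (3 * B ^ 2 / d) * (3 * B ^ 2 / d) := by gcongr
        _ = _ := by ring
  have hoff0 : 0 ≤ 4 * (T : ℝ) / A ^ 2 + 9 * B ^ 4 / (d : ℝ) ^ 2 := by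
    have : (0 : ℝ) ≤ B ^ 4 := by positivity
    positivity
  have hrow : ∀ k ∈ 𝒦, ∑ k' ∈ 𝒦, ∑ t ∈ range T, hh k d a t * hh k' d a t ≤
      6 * T / d + 𝒦.card * (4 * T / A ^ 2 + 9 * B ^ 4 / (d : ℝ) ^ 2) := by
    intro k hk
    rw [← add_sum_erase 𝒦 _ hk]
    refine add_le_add (hdiag k hk) ?_
    calc ∑ k' ∈ 𝒦.erase k, ∑ t ∈ range T, hh k d a t * hh k' d a t
        ≤ ∑ _k' ∈ 𝒦.erase k, (4 * T / A ^ 2 + 9 * B ^ 4 / (d : ℝ) ^ 2) :=
          sum_le_sum fun k' hk' => hoff k hk k' (mem_of_mem_erase hk') (ne_of_mem_erase hk').symm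
      _ = (𝒦.erase k).card * (4 * T / A ^ 2 + 9 * B ^ 4 / (d : ℝ) ^ 2) := by
          rw [sum_const, nsmul_eq_mul]
      _ ≤ _ := by
          have : ((𝒦.erase k).card : ℝ) ≤ 𝒦.card := by exact_mod_cast card_le_card (erase_subset _ _)
          gcongr
  calc ∑ k ∈ 𝒦, ∑ k' ∈ 𝒦, ∑ t ∈ range T, hh k d a t * hh k' d a t
      ≤ ∑ _k ∈ 𝒦, (6 * T / d + 𝒦.card * (4 * T / A ^ 2 + 9 * B ^ 4 / (d : ℝ) ^ 2)) :=
        sum_le_sum hrow
    _ = _ := by
        rw [sum_const, nsmul_eq_mul]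
        ring

end Pool.Agent.Work.MP_db5cd1_nt
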