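import Mathlib
import Pool.Agent.Work.MP_40574a_nt.Mertens
import Pool.Agent.Work.MP_db5cd1_nt.Var

/-! The exceptional moduli. -/

namespace Pool.Agent.Work.MP_db5cd1_nt

open Finset Pool.Agent.Work.MP_40574a_nt Mertens

noncomputable section

/-- splitting the coprime residues modulo `d` into progressions -/
lemma sum_prog {d : ℕ} (hd : 0 < d) (N : ℕ) (F : ℕ → ℝ) (hF : ∀ m, 0 ≤ F m) :
    ∑ m ∈ (range (N + 1)).filter (fun m => m.Coprime d), F m ≤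
      ∑ a ∈ (range d).filter (fun a => a.Coprime d), ∑ t ∈ range (N / d + 1), F (a + d * t) := by
  classical
  rw [← sum_product']
  have hinj : Set.InjOn (fun m : ℕ => (m % d, m / d))
      ((range (N + 1)).filter (fun m => m.Coprime d) : Set ℕ) := by
    intro m _ m' _ h
    simp only [Prod.mk.injEq] at h
    rw [← Nat.mod_add_div m d, ← Nat.mod_add_div m' d, h.1, h.2]
  calc ∑ m ∈ (range (N + 1)).filter (fun m => m.Coprime d), F m
      = ∑ m ∈ (range (N + 1)).filter (fun m => m.Coprime d),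
          (fun p : ℕ × ℕ => F (p.1 + d * p.2)) (m % d, m / d) := by
        refine sum_congr rfl fun m _ => ?_
        simp only [Nat.mod_add_div]
    _ = ∑ p ∈ ((range (N + 1)).filter (fun m => m.Coprime d)).image (fun m => (m % d, m / d)),
          F (p.1 + d * p.2) := by
        rw [sum_image hinj]
    _ ≤ _ := by
        refine sum_le_sum_of_subset_of_nonneg ?_ fun p _ _ => hF _
        intro p hp
        rw [mem_image] at hp
        obtain ⟨m, hm, rfl⟩ := hp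
        rw [mem_filter, mem_range] at hm
        rw [mem_product, mem_filter, mem_range, mem_range]
        refine ⟨⟨Nat.mod_lt _ hd, ?_⟩, ?_⟩
        · have h1 : m % d ≡ m [MOD d] := Nat.mod_modEq _ _
          have h2 := h1.gcd_eq
          change Nat.gcd (m % d) d = 1
          rw [h2]
          exact hm.2
        · exact Nat.lt_succ_of_le (Nat.div_le_div_right (by omega))

/-- the deviation of `#{k : d ∣ inverse of k² mod m}` from its mean -/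
def GG (𝒦 : Finset ℕ) (d m : ℕ) : ℝ := ∑ k ∈ 𝒦, ((fc k d m : ℝ) - 1 / d)

lemma moment_all (𝒦 : Finset ℕ) {A B : ℝ} (hA : 1 ≤ A) {d N : ℕ}
    (h𝒦 : ∀ k ∈ 𝒦, k.Prime ∧ A ≤ k ∧ (k : ℝ) ≤ B) (hcard : (𝒦.card : ℝ) ≤ B) (hd : 0 < d)
    (hdA : (d : ℝ) < A) (hdN : d ≤ N) (h1 : B ^ 2 * d ≤ N) (h2 : d * B ≤ A ^ 2)
    (h3 : B ^ 5 ≤ N) :
    ∑ m ∈ (range (N + 1)).filter (fun m => m.Coprime d), (GG 𝒦 d m) ^ 2 ≤ 29 * N * B / d := by
  have hd0 : (0 : ℝ) < d := by exact_mod_cast hd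
  have hB0 : 0 ≤ B := (Nat.cast_nonneg _).trans hcard
  have hN0 : (0 : ℝ) ≤ N := Nat.cast_nonneg _
  have hTle : ((N / d + 1 : ℕ) : ℝ) ≤ 2 * N / d := by
    have h4 : ((N / d : ℕ) : ℝ) ≤ N / d := Nat.cast_div_le
    have h5 : (1 : ℝ) ≤ N / d := by
      rw [le_div_iff₀ hd0, one_mul]
      exact_mod_cast hdN
    push_cast
    have h6 : 2 * (N : ℝ) / d = N / d + N / d := by ring
    rw [h6]
    linarith
  have hTge : (N : ℝ) / d ≤ ((N / d + 1 : ℕ) : ℝ) := by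
    rw [div_le_iff₀ hd0]
    have : N < (N / d + 1) * d := by
      have := Nat.div_add_mod N d
      have := Nat.mod_lt N hd
      nlinarith
    exact_mod_cast this.le
  have hT : B ^ 2 ≤ ((N / d + 1 : ℕ) : ℝ) := by
    refine le_trans ?_ hTge
    rwa [le_div_iff₀ hd0]
  refine (sum_prog hd N _ fun m => sq_nonneg _).trans ?_
  have hfix : ∀ a ∈ (range d).filter (fun a => a.Coprime d),
      ∑ t ∈ range (N / d + 1), (GG 𝒦 d (a + d * t)) ^ 2 ≤ 29 * N * B / d ^ 2 := by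
    intro a ha
    have h4 := moment_fixed 𝒦 hA d a (N / d + 1) h𝒦 hd hdA (mem_filter.1 ha).2 hT
    refine (le_of_eq ?_).trans (h4.trans ?_)
    · refine sum_congr rfl fun t _ => ?_
      unfold GG hh
      rfl
    · generalize ((N / d + 1 : ℕ) : ℝ) = T at *
      have hT0 : 0 ≤ T := (sq_nonneg B).trans hT
      have e1 : (𝒦.card : ℝ) * (6 * T / d) ≤ 12 * N * B / d ^ 2 := by
        calc (𝒦.card : ℝ) * (6 * T / d) ≤ B * (6 * (2 * N / d) / d) := by gcongr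
          _ = 12 * N * B / d ^ 2 := by field_simp; ring
      have hA2 : 0 < A ^ 2 := by positivity
      have e2 : (𝒦.card : ℝ) ^ 2 * (4 * T / A ^ 2 + 9 * B ^ 4 / (d : ℝ) ^ 2) ≤
          8 * N * B / d ^ 2 + 9 * N * B / d ^ 2 := by
        calc (𝒦.card : ℝ) ^ 2 * (4 * T / A ^ 2 + 9 * B ^ 4 / (d : ℝ) ^ 2)
            ≤ B ^ 2 * (4 * (2 * N / d) / A ^ 2 + 9 * B ^ 4 / (d : ℝ) ^ 2) := by gcongr
          _ = 8 * N * B / d ^ 2 * ((d * B) / A ^ 2) + 9 * B * B ^ 5 / (d : ℝ) ^ 2 := by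
            field_simp
            ring
          _ ≤ 8 * N * B / d ^ 2 * 1 + 9 * B * N / (d : ℝ) ^ 2 := by
            have e3 : (d * B) / A ^ 2 ≤ 1 := by rwa [div_le_one hA2]
            gcongr
          _ = _ := by ring
      have e4 : 12 * (N : ℝ) * B / d ^ 2 + (8 * N * B / d ^ 2 + 9 * N * B / d ^ 2) =
          29 * N * B / d ^ 2 := by ring
      linarith
  have hc : (((range d).filter (fun a => a.Coprime d)).card : ℝ) ≤ d := by
    have : ((range d).filter (fun a => a.Coprime d)).card ≤ (range d).card :=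
      card_le_card (filter_subset _ _)
    rw [card_range] at this
    exact_mod_cast this
  calc ∑ a ∈ (range d).filter (fun a => a.Coprime d),
        ∑ t ∈ range (N / d + 1), (GG 𝒦 d (a + d * t)) ^ 2
      ≤ ∑ _a ∈ (range d).filter (fun a => a.Coprime d), 29 * N * B / (d : ℝ) ^ 2 :=
        sum_le_sum hfix
    _ = (((range d).filter (fun a => a.Coprime d)).card : ℝ) * (29 * N * B / (d : ℝ) ^ 2) := by
        rw [sum_const, nsmul_eq_mul]
    _ ≤ d * (29 * N * B / (d : ℝ) ^ 2) := by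
        gcongr
    _ = 29 * N * B / d := by
        field_simp

lemma first_moment (𝒦 : Finset ℕ) {A B : ℝ} (hA : 1 ≤ A) {d N : ℕ}
    (h𝒦 : ∀ k ∈ 𝒦, k.Prime ∧ A ≤ k ∧ (k : ℝ) ≤ B) (hcard : (𝒦.card : ℝ) ≤ B) (hd : 0 < d)
    (hdA : (d : ℝ) < A) (hdN : d ≤ N) (h1 : B ^ 2 * d ≤ N) (h2 : d * B ≤ A ^ 2)
    (h3 : B ^ 5 ≤ N) :
    ∑ m ∈ (range (N + 1)).filter (fun m => m.Coprime d), |GG 𝒦 d m| ≤
      8 * N * √B * (1 / √d) := by
  have hd0 : (0 : ℝ) < d := by exact_mod_cast hd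
  have hB0 : 0 ≤ B := (Nat.cast_nonneg _).trans hcard
  have hN1 : (1 : ℝ) ≤ N := by exact_mod_cast hd.trans_le hdN
  have h4 := moment_all 𝒦 hA h𝒦 hcard hd hdA hdN h1 h2 h3
  have h5 := sq_sum_le_card_mul_sum_sq (s := (range (N + 1)).filter (fun m => m.Coprime d))
    (f := fun m => |GG 𝒦 d m|)
  simp only [sq_abs] at h5
  have hc : (((range (N + 1)).filter (fun m => m.Coprime d)).card : ℝ) ≤ 2 * N := by
    have : ((range (N + 1)).filter (fun m => m.Coprime d)).card ≤ (range (N + 1)).card :=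
      card_le_card (filter_subset _ _)
    rw [card_range] at this
    have h6 : (((range (N + 1)).filter (fun m => m.Coprime d)).card : ℝ) ≤ N + 1 := by
      exact_mod_cast this
    linarith
  have h6 : (∑ m ∈ (range (N + 1)).filter (fun m => m.Coprime d), |GG 𝒦 d m|) ^ 2 ≤
      (8 * N * √B * (1 / √d)) ^ 2 := by
    calc _ ≤ (((range (N + 1)).filter (fun m => m.Coprime d)).card : ℝ) *
          ∑ m ∈ (range (N + 1)).filter (fun m => m.Coprime d), (GG 𝒦 d m) ^ 2 := h5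
      _ ≤ (2 * N) * (29 * N * B / d) := by
          refine mul_le_mul hc h4 (sum_nonneg fun m _ => sq_nonneg _) (by positivity)
      _ = 58 * (N ^ 2 * B / d) := by ring
      _ ≤ 64 * (N ^ 2 * B / d) := by
          have : 0 ≤ (N : ℝ) ^ 2 * B / d := by positivity
          linarith
      _ = (8 * N * √B * (1 / √d)) ^ 2 := by
          have e1 : √B ^ 2 = B := Real.sq_sqrt hB0
          have e2 : √(d : ℝ) ^ 2 = d := Real.sq_sqrt hd0.le
          have e3 : (8 * N * √B * (1 / √d)) ^ 2 = 64 * N ^ 2 * (√B ^ 2) / (√(d : ℝ) ^ 2) := by ring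
          rw [e3, e1, e2]
          ring
  exact le_of_sq_le_sq h6 (by positivity)
where
  le_of_sq_le_sq {a b : ℝ} (h : a ^ 2 ≤ b ^ 2) (hb : 0 ≤ b) : a ≤ b := abs_le_of_sq_le_sq' h hb |>.2

lemma sum_inv_sqrt (D : ℕ) : ∑ d ∈ Icc 1 D, 1 / √(d : ℝ) ≤ 2 * √D := by
  induction D with
  | zero => simp
  | succ D ih =>
    rw [sum_Icc_succ_top (by omega)]
    have h0 : (0 : ℝ) ≤ D := Nat.cast_nonneg D
    have h1 : 0 < √((D : ℝ) + 1) := Real.sqrt_pos.2 (by linarith)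
    have h2 : √(D : ℝ) ≤ √((D : ℝ) + 1) := Real.sqrt_le_sqrt (by linarith)
    have h3 : √((D : ℝ) + 1) ^ 2 = D + 1 := Real.sq_sqrt (by linarith)
    have h4 : √(D : ℝ) ^ 2 = D := Real.sq_sqrt h0
    have h5 : 1 / √((D : ℝ) + 1) ≤ 2 * (√((D : ℝ) + 1) - √(D : ℝ)) := by
      rw [div_le_iff₀ h1]
      nlinarith [Real.sqrt_nonneg (D : ℝ)]
    push_cast
    linarith

/-- the total deviation -/
def EE (𝒦 : Finset ℕ) (D m : ℕ) : ℝ := ∑ d ∈ (Icc 1 D).filter (fun d => m.Coprime d), |GG 𝒦 d m|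

lemma EE_nonneg (𝒦 : Finset ℕ) (D m : ℕ) : 0 ≤ EE 𝒦 D m := sum_nonneg fun _ _ => abs_nonneg _

lemma sum_EE (𝒦 : Finset ℕ) {A B : ℝ} (hA : 1 ≤ A) {D N : ℕ}
    (h𝒦 : ∀ k ∈ 𝒦, k.Prime ∧ A ≤ k ∧ (k : ℝ) ≤ B) (hcard : (𝒦.card : ℝ) ≤ B)
    (hdA : (D : ℝ) < A) (hdN : D ≤ N) (h1 : B ^ 2 * D ≤ N) (h2 : D * B ≤ A ^ 2)
    (h3 : B ^ 5 ≤ N) :
    ∑ m ∈ range (N + 1), EE 𝒦 D m ≤ 16 * N * √(B * D) := by
  have hB0 : 0 ≤ B := (Nat.cast_nonneg _).trans hcard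
  have e1 : ∑ m ∈ range (N + 1), EE 𝒦 D m = ∑ d ∈ Icc 1 D,
      ∑ m ∈ (range (N + 1)).filter (fun m => m.Coprime d), |GG 𝒦 d m| := by
    unfold EE
    simp_rw [sum_filter]
    rw [sum_comm]
  rw [e1]
  calc ∑ d ∈ Icc 1 D, ∑ m ∈ (range (N + 1)).filter (fun m => m.Coprime d), |GG 𝒦 d m|
      ≤ ∑ d ∈ Icc 1 D, 8 * N * √B * (1 / √(d : ℝ)) := by
        refine sum_le_sum fun d hd => ?_
        rw [mem_Icc] at hd
        have hdD : (d : ℝ) ≤ D := by exact_mod_cast hd.2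
        have hB2 : 0 ≤ B ^ 2 := sq_nonneg B
        refine first_moment 𝒦 hA h𝒦 hcard hd.1 (hdD.trans_lt hdA) (hd.2.trans hdN) ?_ ?_ h3
        · exact (mul_le_mul_of_nonneg_left hdD hB2).trans h1
        · exact (mul_le_mul_of_nonneg_right hdD hB0).trans h2
    _ = 8 * N * √B * ∑ d ∈ Icc 1 D, 1 / √(d : ℝ) := by rw [mul_sum]
    _ ≤ 8 * N * √B * (2 * √D) := by
        have := sum_inv_sqrt D
        gcongr
    _ = 16 * N * √(B * D) := by
        rw [Real.sqrt_mul hB0]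
        ring

/-- Markov's inequality for counting -/
lemma markov (S : Finset ℕ) (F : ℕ → ℝ) (hF : ∀ m, 0 ≤ F m) {M T : ℝ} (hT : 0 < T)
    (h : ∑ m ∈ S, F m ≤ M) : ((S.filter (fun m => T < F m)).card : ℝ) ≤ M / T := by
  rw [le_div_iff₀ hT]
  calc ((S.filter (fun m => T < F m)).card : ℝ) * T = ∑ _m ∈ S.filter (fun m => T < F m), T := by
        rw [sum_const, nsmul_eq_mul]
    _ ≤ ∑ m ∈ S.filter (fun m => T < F m), F m := sum_le_sum fun m hm => (mem_filter.1 hm).2.le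
    _ ≤ ∑ m ∈ S, F m := sum_le_sum_of_subset_of_nonneg (filter_subset _ _) fun m _ _ => hF m
    _ ≤ M := h

/-! ### Squares of large primes -/

lemma card_one_add_le {q : ℕ} (hq : 0 < q) (j n : ℕ) :
    (((range n).filter (fun m => q ∣ 1 + j * m)).card : ℝ) ≤ n / q + 1 := by
  by_cases hc : j.Coprime q
  · have := (abs_le.1 (card_sol_range hq hc 1 n)).2
    linarith
  · have : (range n).filter (fun m => q ∣ 1 + j * m) = ∅ := by
      rw [filter_eq_empty_iff]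
      intro m _ h
      apply hc
      have h1 : Nat.gcd j q ∣ 1 + j * m := (Nat.gcd_dvd_right _ _).trans h
      have h2 : Nat.gcd j q ∣ 1 :=
        (Nat.dvd_add_left ((Nat.gcd_dvd_left j q).trans (Dvd.intro _ rfl))).1 h1
      exact Nat.dvd_one.1 h2
    rw [this, card_empty]
    push_cast
    positivity

lemma sum_fc_sq {k l : ℕ} (hk : 0 < k) (hl : 0 < l) (N : ℕ) :
    ∑ m ∈ range (N + 1), (fc k (l ^ 2) m : ℝ) ≤ (N + 1) / (l : ℝ) ^ 2 + (k : ℝ) ^ 2 := by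
  have hq : 0 < l ^ 2 * k ^ 2 := by positivity
  have hk0 : (0 : ℝ) < k := by exact_mod_cast hk
  have hl0 : (0 : ℝ) < l := by exact_mod_cast hl
  have e1 : ∑ m ∈ range (N + 1), (fc k (l ^ 2) m : ℝ) =
      ∑ j ∈ range (k ^ 2), (((range (N + 1)).filter (fun m => l ^ 2 * k ^ 2 ∣ 1 + j * m)).card : ℝ) := by
    unfold fc
    simp_rw [card_filter]
    push_cast
    rw [sum_comm]
  rw [e1]
  calc ∑ j ∈ range (k ^ 2), (((range (N + 1)).filter (fun m => l ^ 2 * k ^ 2 ∣ 1 + j * m)).card : ℝ)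
      ≤ ∑ _j ∈ range (k ^ 2), (((N + 1 : ℕ) : ℝ) / ((l ^ 2 * k ^ 2 : ℕ) : ℝ) + 1) :=
        sum_le_sum fun j _ => card_one_add_le hq j (N + 1)
    _ = (N + 1) / (l : ℝ) ^ 2 + (k : ℝ) ^ 2 := by
        rw [sum_const, card_range, nsmul_eq_mul]
        push_cast
        field_simp

/-- the number of `k`, counted with the squares `l²` dividing the inverse -/
def BS (𝒦 : Finset ℕ) (z y : ℝ) (m : ℕ) : ℝ := ∑ k ∈ 𝒦, ∑ l ∈ Ioc ⌊z⌋₊ ⌊y⌋₊, (fc k (l ^ 2) m : ℝ)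

lemma BS_nonneg (𝒦 : Finset ℕ) (z y : ℝ) (m : ℕ) : 0 ≤ BS 𝒦 z y m :=
  sum_nonneg fun _ _ => sum_nonneg fun _ _ => Nat.cast_nonneg _

lemma sum_BS (𝒦 : Finset ℕ) {B z y : ℝ} {N : ℕ} (hN : 1 ≤ N) (hz : 1 ≤ z) (hzy : z ≤ y)
    (h𝒦 : ∀ k ∈ 𝒦, k.Prime ∧ (k : ℝ) ≤ B) (hcard : (𝒦.card : ℝ) ≤ B) :
    ∑ m ∈ range (N + 1), BS 𝒦 z y m ≤ B * (4 * N / z + y * B ^ 2) := by
  have hB0 : 0 ≤ B := (Nat.cast_nonneg _).trans hcard
  have hN1 : (1 : ℝ) ≤ N := by exact_mod_cast hN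
  have hz0 : 0 < z := by linarith
  have e1 : ∑ m ∈ range (N + 1), BS 𝒦 z y m = ∑ k ∈ 𝒦, ∑ l ∈ Ioc ⌊z⌋₊ ⌊y⌋₊,
      ∑ m ∈ range (N + 1), (fc k (l ^ 2) m : ℝ) := by
    unfold BS
    rw [sum_comm]
    refine sum_congr rfl fun k _ => ?_
    rw [sum_comm]
  rw [e1]
  have hfl : ⌊z⌋₊ ≠ 0 := by
    have : 1 ≤ ⌊z⌋₊ := by rwa [Nat.one_le_floor_iff]
    omega
  have hfl1 : (1 : ℝ) ≤ ⌊z⌋₊ := by exact_mod_cast Nat.one_le_iff_ne_zero.2 hfl
  have hsq : ∑ l ∈ Ioc ⌊z⌋₊ ⌊y⌋₊, ((l : ℝ) ^ 2)⁻¹ ≤ 2 / z := by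
    have h2 := sum_Ioc_inv_sq_le_sub (α := ℝ) hfl (Nat.floor_le_floor hzy)
    have h3 : (⌊z⌋₊ : ℝ)⁻¹ ≤ 2 / z := by
      rw [inv_eq_one_div, div_le_div_iff₀ (by linarith) (by linarith)]
      have := Nat.lt_floor_add_one z
      linarith
    have h4 : (0 : ℝ) ≤ (⌊y⌋₊ : ℝ)⁻¹ := by positivity
    linarith
  have hrow : ∀ k ∈ 𝒦, ∑ l ∈ Ioc ⌊z⌋₊ ⌊y⌋₊, ∑ m ∈ range (N + 1), (fc k (l ^ 2) m : ℝ) ≤
      4 * N / z + y * B ^ 2 := by
    intro k hk
    obtain ⟨hkp, hkB⟩ := h𝒦 k hk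
    calc ∑ l ∈ Ioc ⌊z⌋₊ ⌊y⌋₊, ∑ m ∈ range (N + 1), (fc k (l ^ 2) m : ℝ)
        ≤ ∑ l ∈ Ioc ⌊z⌋₊ ⌊y⌋₊, ((N + 1) * ((l : ℝ) ^ 2)⁻¹ + B ^ 2) := by
          refine sum_le_sum fun l hl => ?_
          rw [mem_Ioc] at hl
          refine (sum_fc_sq hkp.pos (by omega) N).trans (add_le_add (le_of_eq ?_) ?_)
          · rw [div_eq_mul_inv]
          · have : (0 : ℝ) ≤ k := Nat.cast_nonneg _
            gcongr
      _ = (N + 1) * ∑ l ∈ Ioc ⌊z⌋₊ ⌊y⌋₊, ((l : ℝ) ^ 2)⁻¹ + ((Ioc ⌊z⌋₊ ⌊y⌋₊).card : ℝ) * B ^ 2 := by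
          rw [sum_add_distrib, ← mul_sum, sum_const, nsmul_eq_mul]
      _ ≤ (2 * N) * (2 / z) + y * B ^ 2 := by
          refine add_le_add ?_ ?_
          · refine mul_le_mul (by linarith) hsq (sum_nonneg fun l _ => by positivity) (by positivity)
          · refine mul_le_mul_of_nonneg_right ?_ (sq_nonneg B)
            rw [Nat.card_Ioc]
            have h5 : ((⌊y⌋₊ - ⌊z⌋₊ : ℕ) : ℝ) ≤ (⌊y⌋₊ : ℝ) := by
              exact_mod_cast Nat.sub_le _ _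
            exact h5.trans (Nat.floor_le (by linarith))
      _ = _ := by ring
  calc _ ≤ ∑ _k ∈ 𝒦, (4 * N / z + y * B ^ 2) := sum_le_sum hrow
    _ = (𝒦.card : ℝ) * (4 * N / z + y * B ^ 2) := by rw [sum_const, nsmul_eq_mul]
    _ ≤ _ := by
        have hy0 : 0 ≤ y := by linarith
        have : 0 ≤ 4 * N / z + y * B ^ 2 := by positivity
        gcongr

end

end Pool.Agent.Work.MP_db5cd1_nt
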