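import Mathlib
import Pool.Agent.Work.MP_40574a_nt.PA.Params3

/-! Density sums and products in dimension one. -/

namespace Pool.Agent.Work.MP_db5cd1_nt

open Finset Pool.Agent.Work.MP_40574a_nt BrunHooley Mertens PA

noncomputable section

/-- the density -/
def g1 (q : ℕ) : ℝ := 1 / (q : ℝ)

lemma g1_nonneg (q : ℕ) : 0 ≤ g1 q := by unfold g1; positivity

lemma g1_le_half {q : ℕ} (hq : q.Prime) : g1 q ≤ 1 / 2 := by
  unfold g1
  have : (2 : ℝ) ≤ q := by exact_mod_cast hq.two_le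
  exact one_div_le_one_div_of_le (by norm_num) this

lemma g1_lt_one {q : ℕ} (hq : q.Prime) : g1 q < 1 := by linarith [g1_le_half hq]

lemma V1_pos {s : Finset ℕ} (hs : ∀ q ∈ s, q.Prime) : 0 < V g1 s := by
  unfold V
  exact prod_pos fun q hq => by linarith [g1_lt_one (hs q hq)]

lemma V1_ge {s : Finset ℕ} (hs : ∀ q ∈ s, q.Prime) :
    Real.exp (-(∑ q ∈ s, g1 q + 2 * ∑ q ∈ s, g1 q ^ 2)) ≤ V g1 s := by
  unfold V
  have : -(∑ q ∈ s, g1 q + 2 * ∑ q ∈ s, g1 q ^ 2) = ∑ q ∈ s, (-(g1 q + 2 * g1 q ^ 2)) := by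
    rw [sum_neg_distrib, sum_add_distrib, mul_sum]
  rw [this, Real.exp_sum]
  exact prod_le_prod (fun q _ => (Real.exp_pos _).le) fun q hq =>
    Params3_exp_le (g1_nonneg q) (g1_le_half (hs q hq))

lemma sq_le1 {a b : ℝ} (ha : 1 ≤ a) (hab : a ≤ b) :
    ∑ q ∈ PB a b, g1 q ^ 2 ≤ 2 / a := by
  refine le_trans (le_of_eq ?_) (Params3_inv_sq ha hab)
  refine sum_congr rfl fun q _ => ?_
  unfold g1
  rw [one_div, inv_pow, one_div]

/-- lower bound of the product over a block -/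
lemma V1_block {C : ℝ} (h : ∀ a b : ℝ, 2 ≤ a → a ≤ b →
      ∑ p ∈ PB a b, (1 : ℝ) / p ≤ Real.log (Real.log b / Real.log a) + C / Real.log a)
    {a b : ℝ} (ha : 2 ≤ a) (hab : a ≤ b) :
    (Real.log a / Real.log b) * Real.exp (-(C / Real.log a + 4 / a)) ≤ V g1 (PB a b) := by
  have hla : 0 < Real.log a := Real.log_pos (by linarith)
  have hlb : 0 < Real.log b := Real.log_pos (by linarith)
  refine le_trans ?_ (V1_ge Params3_prime)
  have h2 : ∑ q ∈ PB a b, g1 q ≤ Real.log (Real.log b / Real.log a) + C / Real.log a :=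
    h a b ha hab
  have h3 := sq_le1 (by linarith : 1 ≤ a) hab
  have h7 : Real.exp (-Real.log (Real.log b / Real.log a)) = Real.log a / Real.log b := by
    rw [← Real.log_inv, inv_div, Real.exp_log (by positivity)]
  rw [← h7, ← Real.exp_add, Real.exp_le_exp]
  have h9 : 4 / a = 2 * (2 / a) := by ring
  rw [h9]
  linarith

lemma block_sum1 : ∃ w0 : ℝ, 2 ≤ w0 ∧ ∀ w, w0 ≤ w → ∀ a b : ℝ, w ≤ a → a ≤ b →
    Real.log b ≤ (5 / 3) * Real.log a → ∑ q ∈ PB a b, g1 q ≤ 0.512 := by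
  obtain ⟨C, hC, h⟩ := mertens_second
  refine ⟨max 12000 (Real.exp (3000 * C)), (by norm_num : (2 : ℝ) ≤ 12000).trans (le_max_left _ _),
    fun w hw a b ha hab hlog => ?_⟩
  have hw2 : 12000 ≤ w := (le_max_left _ _).trans hw
  have hw3 : Real.exp (3000 * C) ≤ w := (le_max_right _ _).trans hw
  have ha2 : 12000 ≤ a := hw2.trans ha
  have hla : 3000 * C ≤ Real.log a := by
    rw [Real.le_log_iff_exp_le (by linarith)]
    exact hw3.trans ha
  have hla0 : 0 < Real.log a := Real.log_pos (by linarith)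
  have h2 : ∑ q ∈ PB a b, g1 q ≤ Real.log (Real.log b / Real.log a) + C / Real.log a :=
    h a b (by linarith) hab
  have h3 : Real.log (Real.log b / Real.log a) ≤ 0.511 := by
    refine le_trans (Real.log_le_log ?_ ?_) Params3_log_five_thirds
    · exact div_pos (Real.log_pos (by linarith)) hla0
    · rw [div_le_iff₀ hla0]; exact hlog
  have h4 : C / Real.log a ≤ 1 / 3000 := by
    rw [div_le_div_iff₀ hla0 (by norm_num)]
    linarith
  norm_num at h3 h4 ⊢
  linarith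

lemma block_V1 : ∃ w0 : ℝ, 2 ≤ w0 ∧ ∀ w, w0 ≤ w → ∀ a b : ℝ, w ≤ a → a ≤ b →
    ∑ q ∈ PB a b, g1 q ≤ 0.512 → Real.exp (-0.52) ≤ V g1 (PB a b) := by
  refine ⟨10000, by norm_num, fun w hw a b ha hab hsum => ?_⟩
  refine le_trans ?_ (V1_ge Params3_prime)
  rw [Real.exp_le_exp]
  have h1 := sq_le1 (by linarith : (1 : ℝ) ≤ a) hab
  have h2 : 2 / a ≤ 2 / 10000 := div_le_div_of_nonneg_left (by norm_num) (by norm_num) (by linarith)
  norm_num at hsum h2 ⊢
  linarith

lemma V1_split {a b c : ℝ} (hab : a ≤ b) (hbc : b ≤ c) :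
    V g1 (PB a c) = V g1 (PB a b) * V g1 (PB b c) := by
  have h1 := Nat.floor_le_floor hab
  have h2 := Nat.floor_le_floor hbc
  have e : PB a c = PB a b ∪ PB b c := by
    ext n
    simp only [PB, mem_filter, mem_union, mem_Ioc]
    constructor
    · rintro ⟨⟨h3, h4⟩, h5⟩
      by_cases h6 : n ≤ ⌊b⌋₊
      · exact Or.inl ⟨⟨h3, h6⟩, h5⟩
      · exact Or.inr ⟨⟨by omega, h4⟩, h5⟩
    · rintro (⟨⟨h3, h4⟩, h5⟩ | ⟨⟨h3, h4⟩, h5⟩)
      · exact ⟨⟨h3, by omega⟩, h5⟩
      · exact ⟨⟨by omega, h4⟩, h5⟩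
  unfold V
  rw [e, prod_union]
  rw [disjoint_left]
  intro n hn hn'
  simp only [PB, mem_filter, mem_Ioc] at hn hn'
  omega

lemma V1_lower : ∃ c : ℝ, 0 < c ∧ ∀ z : ℝ, 2 ≤ z → c / Real.log z ≤ V g1 (PB 1 z) := by
  obtain ⟨C, hC, h⟩ := mertens_second
  have hV : 0 < V g1 (PB 1 2) := V1_pos Params3_prime
  have hl2 : 0 < Real.log 2 := Real.log_pos (by norm_num)
  set E := Real.exp (-(C / Real.log 2 + 4 / 2)) with hE
  have hE0 : 0 < E := Real.exp_pos _
  refine ⟨V g1 (PB 1 2) * (Real.log 2 * E), by positivity, fun z hz => ?_⟩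
  have hlz : 0 < Real.log z := Real.log_pos (by linarith)
  rw [V1_split (by norm_num : (1 : ℝ) ≤ 2) hz]
  have h2 := V1_block h (le_refl 2) hz
  calc V g1 (PB 1 2) * (Real.log 2 * E) / Real.log z
      = V g1 (PB 1 2) * ((Real.log 2 / Real.log z) * E) := by ring
    _ ≤ _ := by gcongr

lemma V1_ratio {ε : ℝ} (hε : 0 < ε) : ∃ z0 : ℝ, 2 ≤ z0 ∧ ∀ z' z : ℝ, z0 ≤ z' → z' ≤ z →
    V g1 (PB 1 z') ≤ (1 + ε) * (Real.log z / Real.log z') * V g1 (PB 1 z) := by
  obtain ⟨C, hC, h⟩ := mertens_second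
  have hl : 0 < Real.log (1 + ε) := Real.log_pos (by linarith)
  refine ⟨max 2 (max (Real.exp (2 * C / Real.log (1 + ε))) (8 / Real.log (1 + ε))),
    le_max_left _ _, fun z' z hz' hz => ?_⟩
  have h1 : 2 ≤ z' := (le_max_left _ _).trans hz'
  have h2 : Real.exp (2 * C / Real.log (1 + ε)) ≤ z' :=
    (le_max_left _ _).trans ((le_max_right _ _).trans hz')
  have h3 : 8 / Real.log (1 + ε) ≤ z' :=
    (le_max_right _ _).trans ((le_max_right _ _).trans hz')
  have hlz' : 0 < Real.log z' := Real.log_pos (by linarith)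
  have hlz : 0 < Real.log z := Real.log_pos (by linarith)
  have h4 : 2 * C / Real.log (1 + ε) ≤ Real.log z' := by
    rw [Real.le_log_iff_exp_le (by linarith)]
    exact h2
  have h5 : C / Real.log z' ≤ Real.log (1 + ε) / 2 := by
    rw [div_le_iff₀ hl] at h4
    rw [div_le_div_iff₀ hlz' (by norm_num)]
    nlinarith
  have h6 : 4 / z' ≤ Real.log (1 + ε) / 2 := by
    rw [div_le_iff₀ hl] at h3
    rw [div_le_div_iff₀ (by linarith) (by norm_num)]
    nlinarith
  have h7 := V1_block h h1 hz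
  have h8 : (1 + ε)⁻¹ ≤ Real.exp (-(C / Real.log z' + 4 / z')) := by
    rw [← Real.exp_log (by positivity : 0 < (1 + ε)⁻¹), Real.exp_le_exp, Real.log_inv]
    linarith
  have h9 : 0 < V g1 (PB 1 z') := V1_pos Params3_prime
  rw [V1_split (by linarith : (1 : ℝ) ≤ z') hz]
  have h10 : (Real.log z' / Real.log z) * (1 + ε)⁻¹ ≤ V g1 (PB z' z) :=
    le_trans (by gcongr) h7
  calc V g1 (PB 1 z') = (1 + ε) * (Real.log z / Real.log z') *
        (V g1 (PB 1 z') * ((Real.log z' / Real.log z) * (1 + ε)⁻¹)) := by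
        field_simp
    _ ≤ _ := by gcongr

/-- density sum with a linear weight over `(exp(a L), exp(b L)]` -/
lemma tier_sum1 {ε : ℝ} (hε : 0 < ε) {a b d : ℝ} (ha : 0 < a) (hab : a ≤ b) (hbd : b ≤ d) :
    ∃ L0 : ℝ, 1 ≤ L0 ∧ ∀ L : ℝ, L0 ≤ L →
    ∑ q ∈ PB (Real.exp (a * L)) (Real.exp (b * L)), g1 q * (1 - Real.log q / (d * L)) ≤
      (Real.log (b / a) - (b - a) / d) + ε := by
  obtain ⟨C, hC, h⟩ := mertens_second
  obtain ⟨C1, hC1, h1⟩ := sum_log_bounds
  have hb : 0 < b := by linarith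
  have hd : 0 < d := by linarith
  set K := C / a + C1 / d with hK
  have hK0 : 0 < K := by positivity
  refine ⟨max 1 (max (1 / a) (K / ε)), le_max_left _ _, fun L hL => ?_⟩
  have hL1 : 1 ≤ L := (le_max_left _ _).trans hL
  have hL2 : 1 / a ≤ L := (le_max_left _ _).trans ((le_max_right _ _).trans hL)
  have hL3 : K / ε ≤ L := (le_max_right _ _).trans ((le_max_right _ _).trans hL)
  have hL0 : 0 < L := by linarith
  have haL : 1 ≤ a * L := by
    rw [div_le_iff₀ ha] at hL2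
    linarith
  have hKL : K / L ≤ ε := by
    rw [div_le_iff₀ hε] at hL3
    rw [div_le_iff₀ hL0]
    linarith
  have hexp : a * L + 1 ≤ Real.exp (a * L) := Real.add_one_le_exp _
  have hA2 : 2 ≤ Real.exp (a * L) := by linarith
  have hAB : Real.exp (a * L) ≤ Real.exp (b * L) := by
    rw [Real.exp_le_exp]
    gcongr
  set A := Real.exp (a * L) with hA
  set B := Real.exp (b * L) with hB
  have hlA : Real.log A = a * L := Real.log_exp _
  have hlB : Real.log B = b * L := Real.log_exp _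
  have h2 := h A B hA2 hAB
  have h3 := (abs_le.1 (h1 A B (by linarith) hAB)).1
  rw [hlA, hlB] at h2 h3
  have h5 : b * L / (a * L) = b / a := by
    rw [mul_div_mul_right _ _ hL0.ne']
  rw [h5] at h2
  have h6 : ∀ q ∈ PB A B, g1 q * (1 - Real.log q / (d * L)) =
      (1 / (q : ℝ)) - 1 / (d * L) * (Real.log q / q) := by
    intro q hq
    obtain ⟨hqp, hqA, hqB⟩ := (mem_PB (by linarith) (by linarith)).1 hq
    have hq0 : (0 : ℝ) < q := by linarith
    unfold g1
    field_simp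
  rw [sum_congr rfl h6, sum_sub_distrib, ← mul_sum]
  have h7 : 1 / (d * L) * ((b - a) * L - C1) ≤
      1 / (d * L) * ∑ q ∈ PB A B, Real.log q / q := by
    refine mul_le_mul_of_nonneg_left ?_ (by positivity)
    linarith
  have h8 : 1 / (d * L) * ((b - a) * L - C1) = ((b - a) / d) - C1 / d / L := by
    field_simp
  have h10 : K / L = (C / (a * L)) + C1 / d / L := by
    rw [hK]
    field_simp
  linarith

end

end Pool.Agent.Work.MP_db5cd1_nt
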