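import Mathlib
import Pool.Agent.Work.MP_40574a_nt.PA.Two
import Pool.Agent.Work.MP_db5cd1_nt.Par

/-! The Brun-Hooley sieve in dimension one, explicit parameters. -/

namespace Pool.Agent.Work.MP_db5cd1_nt

open Finset Pool.Agent.Work.MP_40574a_nt BrunHooley Mertens PA

noncomputable section

/-- truncation parameters -/
def bb1 (w : ℝ) (J j : ℕ) : ℕ := if j < J then 1 + j / 3 else (PB 1 w).card

/-- the ratio -/
def rho1 : ℝ := (0.512) ^ 2 / 20

/-- the leading coefficient -/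
def c3 : ℝ := 1.683 * ((0.512) ^ 3 / 6)

lemma sum_tau1 (J : ℕ) : ∑ j ∈ range J, c3 * rho1 ^ (j / 3) ≤ 0.1145 := by
  have hr : 0 ≤ rho1 := by unfold rho1; positivity
  have hc : 0 ≤ c3 := by unfold c3; positivity
  have h1 : ∑ j ∈ range J, c3 * rho1 ^ (j / 3) ≤
      ∑ j ∈ range (3 * J), c3 * rho1 ^ (j / 3) :=
    sum_le_sum_of_subset_of_nonneg (range_subset_range.2 (by omega)) fun j _ _ => by positivity
  refine h1.trans ?_
  rw [SieveMain.sum_three]
  have h2 : ∀ k : ℕ, ∑ i ∈ range k, (c3 * rho1 ^ (3 * i / 3) +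
      c3 * rho1 ^ ((3 * i + 1) / 3) + c3 * rho1 ^ ((3 * i + 2) / 3)) ≤
      0.1145 - 0.1145 * rho1 ^ k := by
    intro k
    induction k with
    | zero => norm_num
    | succ k ih =>
      rw [sum_range_succ]
      have e1 : 3 * k / 3 = k := by omega
      have e2 : (3 * k + 1) / 3 = k := by omega
      have e3 : (3 * k + 2) / 3 = k := by omega
      rw [e1, e2, e3, pow_succ]
      have hp : 0 ≤ rho1 ^ k := by positivity
      have h3 : 3 * c3 + 0.1145 * rho1 ≤ 0.1145 := by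
        unfold c3 rho1
        norm_num
      nlinarith
  refine (h2 J).trans ?_
  have : 0 ≤ rho1 ^ J := by positivity
  linarith

lemma exp_052 : Real.exp 0.52 ≤ 1.683 := by
  have h1 : Real.exp 0.52 = Real.exp 0.04 ^ 13 := by
    rw [← Real.exp_nat_mul]; norm_num
  have h2 : Real.exp 0.04 ≤ 1.04081078 := by
    have := Real.exp_bound' (x := 0.04) (by norm_num) (by norm_num) (n := 5) (by norm_num)
    refine this.trans ?_
    norm_num [Finset.sum_range_succ, Nat.factorial]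
  rw [h1]
  calc Real.exp 0.04 ^ 13 ≤ 1.04081078 ^ 13 := by
        have := Real.exp_pos 0.04
        gcongr
    _ ≤ 1.683 := by norm_num

lemma pow_div_factorial_le1 (i : ℕ) :
    (0.512 : ℝ) ^ (2 * (1 + i) + 1) / ((2 * (1 + i) + 1).factorial : ℝ) ≤
      ((0.512) ^ 3 / 6) * rho1 ^ i := by
  induction i with
  | zero => norm_num [Nat.factorial]
  | succ i ih =>
    have e1 : 2 * (1 + (i + 1)) + 1 = (2 * (1 + i) + 1) + 1 + 1 := by ring
    rw [e1, Nat.factorial_succ, Nat.factorial_succ, pow_succ, pow_succ, pow_succ rho1]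
    have hpos : (0 : ℝ) < ((2 * (1 + i) + 1).factorial : ℝ) := by
      exact_mod_cast Nat.factorial_pos _
    have hi : (0 : ℝ) ≤ i := Nat.cast_nonneg i
    have h1 : (0.512 : ℝ) ^ (2 * (1 + i) + 1) * 0.512 * 0.512 /
        (((2 * (1 + i) + 1 + 1 + 1 : ℕ) * ((2 * (1 + i) + 1 + 1 : ℕ) *
          (2 * (1 + i) + 1).factorial) : ℕ) : ℝ) =
        ((0.512 : ℝ) ^ (2 * (1 + i) + 1) / ((2 * (1 + i) + 1).factorial : ℝ)) *
          (0.512 ^ 2 / ((2 * (1 + i) + 1 + 1 + 1 : ℕ) * (2 * (1 + i) + 1 + 1 : ℕ))) := by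
      push_cast
      field_simp
    rw [h1]
    have h2 : (0.512 : ℝ) ^ 2 / ((2 * (1 + i) + 1 + 1 + 1 : ℕ) * (2 * (1 + i) + 1 + 1 : ℕ)) ≤
        rho1 := by
      unfold rho1
      refine div_le_div_of_nonneg_left (by positivity) (by norm_num) ?_
      push_cast
      nlinarith
    have h3 : 0 ≤ rho1 := by unfold rho1; positivity
    have h4 : (0 : ℝ) ≤ ((0.512) ^ 3 / 6) * rho1 ^ i := by positivity
    rw [← mul_assoc]
    exact mul_le_mul ih h2 (by positivity) h4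

lemma sum_U1 (J : ℕ) : ∑ j ∈ range J, (2 * ((1 + j / 3 : ℕ) : ℝ)) * (3 / 5 : ℝ) ^ j ≤ 6.378 := by
  have h1 : ∑ j ∈ range J, (2 * ((1 + j / 3 : ℕ) : ℝ)) * (3 / 5 : ℝ) ^ j ≤
      ∑ j ∈ range (3 * J), (2 * ((1 + j / 3 : ℕ) : ℝ)) * (3 / 5 : ℝ) ^ j :=
    sum_le_sum_of_subset_of_nonneg (range_subset_range.2 (by omega)) fun j _ _ => by positivity
  refine h1.trans ?_
  rw [SieveMain.sum_three]
  have h2 : ∀ k : ℕ, ∑ i ∈ range k, ((2 * ((1 + 3 * i / 3 : ℕ) : ℝ)) * (3 / 5 : ℝ) ^ (3 * i) +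
      (2 * ((1 + (3 * i + 1) / 3 : ℕ) : ℝ)) * (3 / 5 : ℝ) ^ (3 * i + 1) +
      (2 * ((1 + (3 * i + 2) / 3 : ℕ) : ℝ)) * (3 / 5 : ℝ) ^ (3 * i + 2)) ≤
      6.378 - (27 / 125 : ℝ) ^ k * (6.378 + 5 * k) := by
    intro k
    induction k with
    | zero => norm_num
    | succ k ih =>
      rw [sum_range_succ]
      have e1 : 3 * k / 3 = k := by omega
      have e2 : (3 * k + 1) / 3 = k := by omega
      have e3 : (3 * k + 2) / 3 = k := by omega
      rw [e1, e2, e3]
      have e4 : (3 / 5 : ℝ) ^ (3 * k) = (27 / 125 : ℝ) ^ k := by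
        rw [pow_mul]; norm_num
      have e5 : (3 / 5 : ℝ) ^ (3 * k + 1) = (27 / 125 : ℝ) ^ k * (3 / 5) := by
        rw [pow_succ, e4]
      have e6 : (3 / 5 : ℝ) ^ (3 * k + 2) = (27 / 125 : ℝ) ^ k * (9 / 25) := by
        rw [show 3 * k + 2 = 3 * k + 1 + 1 by ring, pow_succ, e5]; ring
      rw [e4, e5, e6, pow_succ]
      have hp : 0 < (27 / 125 : ℝ) ^ k := by positivity
      push_cast at ih ⊢
      set s := (27 / 125 : ℝ) ^ k
      have hkey : 2 * (1 + (k : ℝ)) * s + 2 * (1 + (k : ℝ)) * (s * (3 / 5)) +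
          2 * (1 + (k : ℝ)) * (s * (9 / 25)) ≤
          s * (6.378 + 5 * k) - s * (27 / 125) * (6.378 + 5 * (k + 1)) := by
        have : s * (6.378 + 5 * k) - s * (27 / 125) * (6.378 + 5 * (k + 1)) -
            (2 * (1 + (k : ℝ)) * s + 2 * (1 + (k : ℝ)) * (s * (3 / 5)) +
            2 * (1 + (k : ℝ)) * (s * (9 / 25))) = s * 0.000352 := by ring
        nlinarith
      linarith
  refine (h2 J).trans ?_
  have : 0 ≤ (27 / 125 : ℝ) ^ J * (6.378 + 5 * J) := by positivity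
  linarith

section blocks

variable {w z : ℝ} {J : ℕ}

lemma prod_V1_eq (hw : 1 ≤ w) (hz : w ≤ z) (hJ : SieveMain.Z z J ≤ w) :
    ∏ j ∈ range (J + 1), V g1 (SieveMain.Blk w z J j) = V g1 (PB 1 z) := by
  have h1 : ∏ j ∈ range (J + 1), V g1 (SieveMain.Blk w z J j) =
      V g1 (Qs (SieveMain.Blk w z J) (J + 1)) := by
    unfold V Qs
    rw [prod_biUnion]
    intro i _ j _ hij
    rcases lt_or_gt_of_ne hij with h | h
    · exact SieveMain.Blk_disj (by linarith) (by linarith) i j h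
    · exact (SieveMain.Blk_disj (by linarith) (by linarith) j i h).symm
  rw [h1, SieveMain.Qs_eq hw hz hJ]

end blocks

/-- survive the sieve up to `z` -/
def S1 (dv : ℕ → ℕ → Prop) (z : ℝ) (m : ℕ) : Prop := ∀ q : ℕ, q.Prime → (q : ℝ) ≤ z → ¬ dv q m

lemma sifted1_iff (dv : ℕ → ℕ → Prop) [∀ q m, Decidable (dv q m)] {w z : ℝ} {J : ℕ} (hw : 1 ≤ w)
    (hz : w ≤ z) (hJ : SieveMain.Z z J ≤ w) (m : ℕ) :
    Sifted dv (SieveMain.Blk w z J) (J + 1) m ↔ S1 dv z m := by
  unfold Sifted S1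
  rw [SieveMain.Qs_eq hw hz hJ]
  constructor
  · intro h q hq hqz
    refine h q ((mem_PB zero_le_one (by linarith)).2 ⟨hq, ?_, hqz⟩)
    exact_mod_cast hq.one_lt
  · intro h q hq
    rw [mem_PB zero_le_one (by linarith)] at hq
    exact h q hq.1 hq.2.2

open Classical in
theorem sieve1 : ∃ z0 W : ℝ, 2 ≤ z0 ∧ 1 ≤ W ∧ ∀ z : ℝ, z0 ≤ z → ∃ 𝒰 ℒ : Finset (Finset ℕ),
    (∀ S ∈ 𝒰, (∀ q ∈ S, q.Prime ∧ (q : ℝ) ≤ z) ∧
      (((∏ q ∈ S, q : ℕ) : ℝ) ≤ W * Real.exp (6.378 * Real.log z))) ∧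
    (∀ S ∈ ℒ, (∀ q ∈ S, q.Prime ∧ (q : ℝ) ≤ z) ∧
      (((∏ q ∈ S, q : ℕ) : ℝ) ≤ W * Real.exp (8.878 * Real.log z))) ∧
    ∀ (A : Finset ℕ) (w : ℕ → ℝ) (dv : ℕ → ℕ → Prop) (X : ℝ), 0 ≤ X → (∀ m ∈ A, 0 ≤ w m) →
      (0.885 * X * V g1 (PB 1 z) - ∑ S ∈ ℒ, rem A w dv g1 X S ≤
        ∑ m ∈ A.filter (fun m => S1 dv z m), w m) ∧
      (∀ q : ℕ, q.Prime → z < q → ∑ m ∈ A.filter (fun m => S1 dv z m ∧ dv q m), w m ≤
        1.13 * X * g1 q * V g1 (PB 1 z) + ∑ S ∈ 𝒰, rem A w dv g1 X ({q} ∪ S)) := by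
  obtain ⟨w1, hw1, hblock⟩ := block_sum1
  obtain ⟨w2, hw2, hblockV⟩ := block_V1
  set w := max 2000 (max w1 w2) with hw
  have hw2000 : 2000 ≤ w := le_max_left _ _
  have hww1 : w1 ≤ w := (le_max_left _ _).trans (le_max_right _ _)
  have hww2 : w2 ≤ w := (le_max_right _ _).trans (le_max_right _ _)
  have hWone : (1 : ℝ) ≤ ((∏ q ∈ PB 1 w, q : ℕ) : ℝ) := by
    have : 1 ≤ ∏ q ∈ PB 1 w, q := Nat.succ_le_of_lt (prod_pos fun q hq => (Params.PB_prime q hq).pos)
    exact_mod_cast this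
  refine ⟨w, ((∏ q ∈ PB 1 w, q : ℕ) : ℝ), by linarith, hWone, fun z hz => ?_⟩
  have hz1 : 1 ≤ z := by linarith
  have hz0 : 0 < z := by linarith
  have hlz : 0 < Real.log z := Real.log_pos (by linarith)
  obtain ⟨J, hJ1, hJ2⟩ := SieveMain.exists_J z (show 2 ≤ w by linarith)
  set B := SieveMain.Blk w z J with hB
  set b' := bb1 w J with hb'
  have hg : ∀ j, ∀ q ∈ B j, 0 ≤ g1 q := fun j q _ => g1_nonneg q
  have hg1 : ∀ j, ∀ q ∈ B j, g1 q < 1 := fun j q hq => g1_lt_one (SieveMain.Blk_prime j q hq)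
  have hdis := SieveMain.Blk_disj (w := w) (z := z) (J := J) (by linarith) hz1
  have hbj : ∀ j, J ≤ j → b' j = (PB 1 w).card := by
    intro j hj; rw [hb']; unfold bb1; rw [if_neg (by omega)]
  have hbj' : ∀ j, j < J → b' j = 1 + j / 3 := by
    intro j hj; rw [hb']; unfold bb1; rw [if_pos hj]
  have hcardJ : ∀ j, J ≤ j → (B j).card < 2 * b' j + 1 := by
    intro j hj
    rw [hbj j hj]
    rcases Nat.eq_or_lt_of_le hj with h | h
    · subst h
      rw [hB, SieveMain.Blk_eq]; omega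
    · rw [hB, SieveMain.Blk_gt h]; simp
  -- block sums for the large blocks
  have hsum : ∀ j < J, ∑ q ∈ B j, g1 q ≤ 0.512 := by
    intro j hj
    rw [hB, SieveMain.Blk_lt hj]
    refine hblock w hww1 _ _ (le_max_left _ _)
      (max_le (hJ2 j hj).le (SieveMain.Z_anti hz1 (by omega))) ?_
    have h1 : Real.log (SieveMain.Z z (j + 1)) ≤ Real.log (max w (SieveMain.Z z (j + 1))) :=
      Real.log_le_log (SieveMain.Z_pos _ _) (le_max_right _ _)
    rw [SieveMain.log_Z] at h1 ⊢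
    rw [pow_succ] at h1
    nlinarith
  have hVj : ∀ j < J, Real.exp (-0.52) ≤ V g1 (B j) := by
    intro j hj
    have := hsum j hj
    rw [hB, SieveMain.Blk_lt hj] at this ⊢
    exact hblockV w hww2 _ _ (le_max_left _ _)
      (max_le (hJ2 j hj).le (SieveMain.Z_anti hz1 (by omega))) this
  -- the tau's
  set τ : ℕ → ℝ := fun j => if j < J then c3 * rho1 ^ (j / 3) else 0 with hτdef
  have hτ : ∀ j, es g1 (B j) (2 * b' j + 1) ≤ τ j * V g1 (B j) := by
    intro j
    by_cases hj : j < J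
    · simp only [hτdef, if_pos hj]
      rw [hbj' j hj]
      have h1 := es_le_pow (hg j) (2 * (1 + j / 3) + 1)
      have hs0 : 0 ≤ ∑ q ∈ B j, g1 q := sum_nonneg (hg j)
      have h2 : (∑ q ∈ B j, g1 q) ^ (2 * (1 + j / 3) + 1) ≤ (0.512 : ℝ) ^ (2 * (1 + j / 3) + 1) :=
        pow_le_pow_left₀ hs0 (hsum j hj) _
      have hfpos : (0 : ℝ) < ((2 * (1 + j / 3) + 1).factorial : ℝ) := by
        exact_mod_cast Nat.factorial_pos _
      have h3 : es g1 (B j) (2 * (1 + j / 3) + 1) ≤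
          ((0.512) ^ 3 / 6) * rho1 ^ (j / 3) := by
        refine h1.trans ((div_le_div_of_nonneg_right h2 hfpos.le).trans ?_)
        exact pow_div_factorial_le1 (j / 3)
      have h4 := hVj j hj
      have h5 : 1 ≤ 1.683 * V g1 (B j) := by
        have h6 : Real.exp 0.52 * Real.exp (-0.52) = 1 := by
          rw [← Real.exp_add]; norm_num
        calc 1 = Real.exp 0.52 * Real.exp (-0.52) := h6.symm
          _ ≤ 1.683 * V g1 (B j) := by
            have := exp_052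
            gcongr
      have h7 : (0 : ℝ) ≤ ((0.512) ^ 3 / 6) * rho1 ^ (j / 3) := by
        unfold rho1; positivity
      calc es g1 (B j) (2 * (1 + j / 3) + 1) ≤
            ((0.512) ^ 3 / 6) * rho1 ^ (j / 3) * 1 := by
            linarith
        _ ≤ ((0.512) ^ 3 / 6) * rho1 ^ (j / 3) * (1.683 * V g1 (B j)) := by gcongr
        _ = c3 * rho1 ^ (j / 3) * V g1 (B j) := by unfold c3; ring
    · simp only [hτdef, if_neg hj, zero_mul]
      unfold es
      rw [powersetCard_eq_empty.2 (hcardJ j (by omega)), sum_empty]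
  have hτ0 : ∀ j, 0 ≤ τ j := by
    intro j
    simp only [hτdef]
    split_ifs
    · unfold c3 rho1; positivity
    · exact le_rfl
  have hτsum : ∑ j ∈ range (J + 1), τ j ≤ 0.1145 := by
    rw [sum_range_succ]
    have h1 : τ J = 0 := by simp [hτdef]
    rw [h1, add_zero]
    have h2 : ∑ j ∈ range J, τ j = ∑ j ∈ range J, c3 * rho1 ^ (j / 3) :=
      sum_congr rfl fun j hj => by simp [hτdef, mem_range.1 hj]
    rw [h2]
    exact sum_tau1 J
  have hVprod := prod_V1_eq (w := w) (z := z) (J := J) (by linarith) hz hJ1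
  have hVpos : 0 < V g1 (PB 1 z) := V1_pos Params.PB_prime
  -- main terms
  have hM1 : (MUL g1 B b' (J + 1)).1 ≤ 1.13 * V g1 (PB 1 z) := by
    refine (MUL_fst_le hg hg1 τ hτ (J + 1)).trans ?_
    rw [prod_mul_distrib, hVprod]
    refine mul_le_mul_of_nonneg_right ?_ hVpos.le
    calc ∏ j ∈ range (J + 1), (1 + τ j) ≤ ∏ j ∈ range (J + 1), Real.exp (τ j) :=
          prod_le_prod (fun j _ => by linarith [hτ0 j]) fun j _ => by
            linarith [Real.add_one_le_exp (τ j)]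
      _ = Real.exp (∑ j ∈ range (J + 1), τ j) := by rw [Real.exp_sum]
      _ ≤ Real.exp 0.1145 := Real.exp_le_exp.2 hτsum
      _ ≤ 1 / (1 - 0.1145) :=
          (Real.exp_bound_div_one_sub_of_interval' (by norm_num) (by norm_num)).le
      _ ≤ 1.13 := by norm_num
  have hM2 : 0.885 * V g1 (PB 1 z) ≤ (MUL g1 B b' (J + 1)).2 := by
    have h1 := MUL_snd_ge (b := b') hg hg1 τ hτ (J + 1)
    have h2 := MUL_fst_ge (b := b') hg hg1 (J + 1)
    rw [hVprod] at h2
    have h3 : (0.885 : ℝ) ≤ 1 - ∑ j ∈ range (J + 1), τ j := by linarith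
    calc 0.885 * V g1 (PB 1 z) ≤ 0.885 * (MUL g1 B b' (J + 1)).1 := by gcongr
      _ ≤ (1 - ∑ j ∈ range (J + 1), τ j) * (MUL g1 B b' (J + 1)).1 :=
          mul_le_mul_of_nonneg_right h3 (MUL_fst_pos hg hg1 (J + 1)).le
      _ ≤ _ := h1
  have hQs := SieveMain.Qs_eq (w := w) (z := z) (J := J) (by linarith) hz hJ1
  refine ⟨DU B b' (J + 1), DL B b' (J + 1), fun S hS => ?_, fun S hS => ?_,
    fun A wt dv X hX hwt => ⟨?_, fun q hq hqz => ?_⟩⟩
  · unfold DU at hS
    rw [mem_filter, mem_powerset] at hS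
    refine ⟨fun q hq => ?_, ?_⟩
    · have h1 := hS.1 hq
      rw [hB, hQs, mem_PB zero_le_one hz0.le] at h1
      exact ⟨h1.1, h1.2.2⟩
    · have h1 := Two_prod_le (w := w) (z := z) (J := J) (by linarith) hz hS.1
        (fun j => 2 * (1 + j / 3)) (fun j hj => by
          have := hS.2 j (by omega)
          rwa [hbj' j hj] at this)
      refine h1.trans ?_
      refine mul_le_mul_of_nonneg_left ?_ (by linarith)
      rw [Real.exp_le_exp]
      refine mul_le_mul_of_nonneg_right ?_ hlz.le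
      have := sum_U1 J
      push_cast at this ⊢
      exact this
  · unfold DL at hS
    rw [mem_filter, mem_powerset] at hS
    refine ⟨fun q hq => ?_, ?_⟩
    · have h1 := hS.1 hq
      rw [hB, hQs, mem_PB zero_le_one hz0.le] at h1
      exact ⟨h1.1, h1.2.2⟩
    · have h1 := Two_prod_le (w := w) (z := z) (J := J) (by linarith) hz hS.1
        (fun j => 2 * (1 + j / 3) + 1) (fun j hj => by
          have := hS.2 j (by omega)
          rwa [hbj' j hj] at this)
      refine h1.trans ?_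
      refine mul_le_mul_of_nonneg_left ?_ (by linarith)
      rw [Real.exp_le_exp]
      refine mul_le_mul_of_nonneg_right ?_ hlz.le
      have h2 := sum_U1 J
      have h3 := Two_sum_geom J
      have h4 : ∑ j ∈ range J, (((2 * (1 + j / 3) + 1 : ℕ) : ℝ)) * (3 / 5 : ℝ) ^ j =
          ∑ j ∈ range J, (2 * ((1 + j / 3 : ℕ) : ℝ)) * (3 / 5 : ℝ) ^ j +
            ∑ j ∈ range J, (3 / 5 : ℝ) ^ j := by
        rw [← sum_add_distrib]
        refine sum_congr rfl fun j _ => ?_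
        push_cast
        ring
      rw [h4]
      linarith
  · have h1 := lower_boundR (A := A) (w := wt) (dv := dv) (g := g1) (X := X) (B := B) (b := b')
      hwt hdis (J + 1) (A.filter (fun m => S1 dv z m)) (filter_subset _ _)
      (fun m hm hs => mem_filter.2 ⟨hm, (sifted1_iff dv (by linarith) hz hJ1 m).1 hs⟩)
    refine le_trans ?_ h1
    have h2 := mul_le_mul_of_nonneg_left hM2 hX
    linarith
  · have h1 := upper_boundR (A := A) (w := wt) (dv := dv) (g := g1) (X := X) (B := B) (b := b')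
      hwt hdis (J + 1) (A.filter (fun m => S1 dv z m ∧ dv q m)) (filter_subset _ _) {q}
      (by
        intro q' hq'
        rw [mem_singleton] at hq'
        subst hq'
        rw [hQs, mem_PB zero_le_one (by linarith)]
        rintro ⟨_, _, h⟩
        linarith)
      (fun m hm => ⟨(sifted1_iff dv (by linarith) hz hJ1 m).2 (mem_filter.1 hm).2.1, by
        intro q' hq'
        rw [mem_singleton] at hq'
        subst hq'
        exact (mem_filter.1 hm).2.2⟩)
    rw [prod_singleton] at h1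
    refine h1.trans ?_
    have h2 : X * g1 q * (MUL g1 B b' (J + 1)).1 ≤ X * g1 q * (1.13 * V g1 (PB 1 z)) :=
      mul_le_mul_of_nonneg_left hM1 (mul_nonneg hX (g1_nonneg q))
    linarith

end

end Pool.Agent.Work.MP_db5cd1_nt
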