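import Mathlib
import Pool.Agent.Work.MP_40574a_nt.PA.Weights
import Pool.Agent.Work.MP_db5cd1_nt.Siv

/-! The weighted sum in dimension one: level `exp(0.199 L)`, numbers up to `exp L`, at most seven
prime factors. -/

namespace Pool.Agent.Work.MP_db5cd1_nt

open Finset Pool.Agent.Work.MP_40574a_nt BrunHooley Mertens PA

noncomputable section

open Classical in
/-- the weight; `z = exp(L/60)`, `y = exp(0.182 L)` -/
def W1 (dv : ℕ → ℕ → Prop) (L : ℝ) (m : ℕ) : ℝ :=
  1 - (2 / 5) * ∑ q ∈ (PB (Real.exp (1 / 60 * L)) (Real.exp (0.182 * L))).filter (fun q => dv q m),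
    (1 - Real.log q / (0.182 * L))

open Classical in
lemma tier_bound1 {a b c : ℝ} (ha : 1 / 60 ≤ a) (hab : a ≤ b) (hb : b ≤ 0.182) (hc0 : 0 < c)
    (hc : c ≤ 1 / 60) (hlev : 6.378 * c + b ≤ 0.1989) :
    ∃ L0 : ℝ, 1 ≤ L0 ∧ ∀ L : ℝ, L0 ≤ L → ∀ (A : Finset ℕ) (w : ℕ → ℝ) (dv : ℕ → ℕ → Prop)
      (X : ℝ), 0 ≤ X → (∀ m ∈ A, 0 ≤ w m) →
      ∑ q ∈ PB (Real.exp (a * L)) (Real.exp (b * L)), (1 - Real.log q / (0.182 * L)) *
        ∑ m ∈ A.filter (fun m => S1 dv (Real.exp (1 / 60 * L)) m ∧ dv q m), w m ≤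
      ((Real.log (b / a) - (b - a) / 0.182) + 0.001) * (1.13 * 1.002 * ((1 / 60) / c)) *
        (X * V g1 (PB 1 (Real.exp (1 / 60 * L)))) +
      ∑ e ∈ (Icc 1 ⌊Real.exp (0.199 * L)⌋₊).filter Squarefree, rem A w dv g1 X e.primeFactors := by
  obtain ⟨z0, W, hz0, hW, hsieve⟩ := sieve1
  obtain ⟨z1, hz1, hratio⟩ := V1_ratio (ε := 0.002) (by norm_num)
  obtain ⟨L1, hL1, htier⟩ := tier_sum1 (ε := 0.001) (by norm_num) (a := a) (b := b) (d := 0.182)
    (by linarith) hab hb
  refine ⟨max L1 (max (Real.log z0 / c) (max (Real.log z1 / c) (10000 * Real.log W))),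
    hL1.trans (le_max_left _ _), fun L hL A w dv X hX hw => ?_⟩
  have hL1' : L1 ≤ L := (le_max_left _ _).trans hL
  have hLz0 : Real.log z0 / c ≤ L := ((le_max_left _ _).trans (le_max_right _ _)).trans hL
  have hLz1 : Real.log z1 / c ≤ L :=
    (((le_max_left _ _).trans (le_max_right _ _)).trans (le_max_right _ _)).trans hL
  have hLW : 10000 * Real.log W ≤ L :=
    (((le_max_right _ _).trans (le_max_right _ _)).trans (le_max_right _ _)).trans hL
  have hLpos : 0 < L := by linarith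
  set z := Real.exp (1 / 60 * L) with hz
  set z' := Real.exp (c * L) with hz'
  have hzz0 : z0 ≤ z' := by
    rw [hz', ← Real.log_le_iff_le_exp (by linarith)]
    rwa [div_le_iff₀ hc0, mul_comm] at hLz0
  have hzz1 : z1 ≤ z' := by
    rw [hz', ← Real.log_le_iff_le_exp (by linarith)]
    rwa [div_le_iff₀ hc0, mul_comm] at hLz1
  have hz'z : z' ≤ z := by
    rw [hz', hz, Real.exp_le_exp]
    exact mul_le_mul_of_nonneg_right hc hLpos.le
  have hza : z ≤ Real.exp (a * L) := by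
    rw [hz, Real.exp_le_exp]
    exact mul_le_mul_of_nonneg_right ha hLpos.le
  obtain ⟨𝒰, ℒ, hU, hLL, hmain⟩ := hsieve z' hzz0
  obtain ⟨-, hup⟩ := hmain A w dv X hX hw
  have hd0 : (0 : ℝ) < 0.182 * L := by positivity
  have hu : ∀ q ∈ PB (Real.exp (a * L)) (Real.exp (b * L)),
      0 ≤ 1 - Real.log q / (0.182 * L) ∧ 1 - Real.log q / (0.182 * L) ≤ 1 ∧ q.Prime ∧
        z' < q ∧ (q : ℝ) ≤ Real.exp (b * L) := by
    intro q hq
    obtain ⟨h1, h2, h3⟩ := (mem_PB (Real.exp_pos _).le (Real.exp_pos _).le).1 hq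
    have hq0 : (0 : ℝ) < q := by exact_mod_cast h1.pos
    have h4 : Real.log q ≤ b * L := by
      rw [Real.log_le_iff_le_exp hq0]; exact h3
    have h5 : Real.log q ≤ 0.182 * L := h4.trans (mul_le_mul_of_nonneg_right hb hLpos.le)
    have h6 : 0 ≤ Real.log q := Real.log_natCast_nonneg q
    refine ⟨?_, ?_, h1, by linarith, h3⟩
    · rw [sub_nonneg, div_le_one hd0]; exact h5
    · have : 0 ≤ Real.log q / (0.182 * L) := by positivity
      linarith
  have hrem0 : ∀ S, 0 ≤ rem A w dv g1 X S := rem_nonneg A w dv g1 X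
  -- the sum
  have h1 : ∑ q ∈ PB (Real.exp (a * L)) (Real.exp (b * L)), (1 - Real.log q / (0.182 * L)) *
        ∑ m ∈ A.filter (fun m => S1 dv z m ∧ dv q m), w m ≤
      ∑ q ∈ PB (Real.exp (a * L)) (Real.exp (b * L)),
        ((g1 q * (1 - Real.log q / (0.182 * L))) * (1.13 * X * V g1 (PB 1 z')) +
          ∑ S ∈ 𝒰, rem A w dv g1 X ({q} ∪ S)) := by
    refine sum_le_sum fun q hq => ?_
    obtain ⟨hu0, hu1, hqp, hzq, hqb⟩ := hu q hq
    have h2 : ∑ m ∈ A.filter (fun m => S1 dv z m ∧ dv q m), w m ≤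
        ∑ m ∈ A.filter (fun m => S1 dv z' m ∧ dv q m), w m := by
      refine sum_le_sum_of_subset_of_nonneg ?_ fun m hm _ => hw m (mem_filter.1 hm).1
      intro m hm
      rw [mem_filter] at hm ⊢
      exact ⟨hm.1, fun r hr hrz => hm.2.1 r hr (hrz.trans hz'z), hm.2.2⟩
    have h3 := hup q hqp hzq
    have h4 : 0 ≤ ∑ S ∈ 𝒰, rem A w dv g1 X ({q} ∪ S) := sum_nonneg fun S _ => hrem0 _
    calc (1 - Real.log q / (0.182 * L)) * ∑ m ∈ A.filter (fun m => S1 dv z m ∧ dv q m), w m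
        ≤ (1 - Real.log q / (0.182 * L)) * (1.13 * X * g1 q * V g1 (PB 1 z') +
            ∑ S ∈ 𝒰, rem A w dv g1 X ({q} ∪ S)) :=
          mul_le_mul_of_nonneg_left (h2.trans h3) hu0
      _ = (g1 q * (1 - Real.log q / (0.182 * L))) * (1.13 * X * V g1 (PB 1 z')) +
            (1 - Real.log q / (0.182 * L)) * ∑ S ∈ 𝒰, rem A w dv g1 X ({q} ∪ S) := by ring
      _ ≤ _ := by
          have := mul_le_mul_of_nonneg_right hu1 h4
          linarith
  have h2 : ∑ q ∈ PB (Real.exp (a * L)) (Real.exp (b * L)),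
      ∑ S ∈ 𝒰, rem A w dv g1 X ({q} ∪ S) ≤
      ∑ e ∈ (Icc 1 ⌊Real.exp (0.199 * L)⌋₊).filter Squarefree,
        rem A w dv g1 X e.primeFactors := by
    refine sum_family2_le (rem A w dv g1 X) hrem0 _ z' _ (fun q hq => ⟨(hu q hq).2.2.1,
      (hu q hq).2.2.2.1⟩) 𝒰 (fun S hS => (hU S hS).1) ?_
    intro q hq S hS
    apply Nat.le_floor
    have h3 := (hU S hS).2
    have h4 := (hu q hq).2.2.2.2
    push_cast at h3 ⊢
    have hWexp : W ≤ Real.exp (0.0001 * L) := by
      rw [← Real.log_le_iff_le_exp (by linarith)]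
      linarith
    have hlz' : Real.log z' = c * L := Real.log_exp _
    rw [hlz'] at h3
    calc (q : ℝ) * ∏ r ∈ S, (r : ℝ) ≤ Real.exp (b * L) * (W * Real.exp (6.378 * (c * L))) := by
          gcongr
      _ ≤ Real.exp (b * L) * (Real.exp (0.0001 * L) * Real.exp (6.378 * (c * L))) := by
          gcongr
      _ = Real.exp ((6.378 * c + b + 0.0001) * L) := by
          rw [← Real.exp_add, ← Real.exp_add]; congr 1; ring
      _ ≤ Real.exp (0.199 * L) := by
          rw [Real.exp_le_exp]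
          exact mul_le_mul_of_nonneg_right (by linarith) hLpos.le
  have h3 : ∑ q ∈ PB (Real.exp (a * L)) (Real.exp (b * L)),
      (g1 q * (1 - Real.log q / (0.182 * L))) * (1.13 * X * V g1 (PB 1 z')) ≤
      ((Real.log (b / a) - (b - a) / 0.182) + 0.001) *
        (1.13 * 1.002 * ((1 / 60) / c)) * (X * V g1 (PB 1 z)) := by
    rw [← sum_mul]
    have e1 := htier L hL1'
    have e2 := hratio z' z hzz1 hz'z
    have e0 : 0 ≤ ∑ q ∈ PB (Real.exp (a * L)) (Real.exp (b * L)),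
        g1 q * (1 - Real.log q / (0.182 * L)) :=
      sum_nonneg fun q hq => mul_nonneg (g1_nonneg q) (hu q hq).1
    have eV : 0 < V g1 (PB 1 z') := V1_pos fun q hq => (mem_filter.1 hq).2
    have elog : Real.log z / Real.log z' = (1 / 60) / c := by
      rw [hz, hz', Real.log_exp, Real.log_exp]
      have : L ≠ 0 := hLpos.ne'
      field_simp
    rw [elog] at e2
    have e3 : 1.13 * X * V g1 (PB 1 z') ≤
        (1.13 * 1.002 * ((1 / 60) / c)) * (X * V g1 (PB 1 z)) := by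
      have e4 := mul_le_mul_of_nonneg_left e2 (show (0 : ℝ) ≤ 1.13 * X by positivity)
      have e5 : (1.13 * X) * ((1 + 0.002) * ((1 / 60) / c) * V g1 (PB 1 z)) =
          (1.13 * 1.002 * ((1 / 60) / c)) * (X * V g1 (PB 1 z)) := by ring
      linarith
    have e6 : 0 ≤ 1.13 * X * V g1 (PB 1 z') := by positivity
    calc (∑ q ∈ PB (Real.exp (a * L)) (Real.exp (b * L)),
          g1 q * (1 - Real.log q / (0.182 * L))) * (1.13 * X * V g1 (PB 1 z'))
        ≤ ((Real.log (b / a) - (b - a) / 0.182) + 0.001) *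
            ((1.13 * 1.002 * ((1 / 60) / c)) * (X * V g1 (PB 1 z))) :=
          mul_le_mul e1 e3 e6 (e0.trans e1)
      _ = _ := by ring
  rw [sum_add_distrib] at h1
  linarith

lemma num0' : Real.log (0.0925 / (1 / 60)) ≤ 1.7141 := by
  have h1 : Real.exp 1.7141 = Real.exp 1 * Real.exp 0.7141 := by
    rw [← Real.exp_add]; norm_num
  have h2 := Real.exp_one_gt_d9
  have h3 : (2.0422 : ℝ) ≤ Real.exp 0.7141 := by
    refine le_trans ?_ (Real.sum_le_exp_of_nonneg (by norm_num : (0 : ℝ) ≤ 0.7141) 9)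
    norm_num [Finset.sum_range_succ, Nat.factorial]
  rw [Real.log_le_iff_le_exp (by norm_num), h1]
  calc (0.0925 / (1 / 60) : ℝ) ≤ 2.7182818283 * 2.0422 := by
        norm_num
    _ ≤ _ := by gcongr

lemma num1' : Real.log (0.145 / 0.0925) ≤ 0.4496 :=
  log_le_of (by norm_num) 7 (by norm_num) (by norm_num [Finset.sum_range_succ, Nat.factorial])

lemma num2' : Real.log (0.182 / 0.145) ≤ 0.2274 :=
  log_le_of (by norm_num) 6 (by norm_num) (by norm_num [Finset.sum_range_succ, Nat.factorial])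

/-- the total of the tiers -/
lemma num_total1 :
    ((Real.log (0.0925 / (1 / 60)) - (0.0925 - 1 / 60) / 0.182) + 0.001) *
      (1.13 * 1.002 * ((1 / 60) / (1 / 60))) +
    ((Real.log (0.145 / 0.0925) - (0.145 - 0.0925) / 0.182) + 0.001) *
      (1.13 * 1.002 * ((1 / 60) / 0.0084)) +
    ((Real.log (0.182 / 0.145) - (0.182 - 0.145) / 0.182) + 0.001) *
      (1.13 * 1.002 * ((1 / 60) / 0.0026)) ≤ 2.05 := by
  have h0 := num0'
  have h1 := num1'
  have h2 := num2'
  generalize Real.log (0.0925 / (1 / 60)) = x0 at *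
  generalize Real.log (0.145 / 0.0925) = x1 at *
  generalize Real.log (0.182 / 0.145) = x2 at *
  norm_num at *
  linarith

open Classical in
theorem weighted1 : ∃ c L0 : ℝ, 0 < c ∧ 1 ≤ L0 ∧ ∀ L : ℝ, L0 ≤ L →
    ∀ (A : Finset ℕ) (w : ℕ → ℝ) (dv : ℕ → ℕ → Prop) (X : ℝ), 0 ≤ X → (∀ m ∈ A, 0 ≤ w m) →
    c * X / L - 3 * ∑ e ∈ (Icc 1 ⌊Real.exp (0.199 * L)⌋₊).filter Squarefree,
        rem A w dv g1 X e.primeFactors ≤
      ∑ m ∈ A.filter (fun m => S1 dv (Real.exp (1 / 60 * L)) m), w m * W1 dv L m := by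
  obtain ⟨z0, W, hz0, hW, hsieve⟩ := sieve1
  obtain ⟨cV, hcV, hVl⟩ := V1_lower
  obtain ⟨L1, hL1, t1⟩ := tier_bound1 (a := 1 / 60) (b := 0.0925) (c := 1 / 60) (by norm_num)
    (by norm_num) (by norm_num) (by norm_num) (by norm_num) (by norm_num)
  obtain ⟨L2, hL2, t2⟩ := tier_bound1 (a := 0.0925) (b := 0.145) (c := 0.0084) (by norm_num)
    (by norm_num) (by norm_num) (by norm_num) (by norm_num) (by norm_num)
  obtain ⟨L3, hL3, t3⟩ := tier_bound1 (a := 0.145) (b := 0.182) (c := 0.0026) (by norm_num)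
    (by norm_num) (by norm_num) (by norm_num) (by norm_num) (by norm_num)
  refine ⟨0.01 * cV, max (max L1 (max L2 L3)) (max (60 * Real.log z0)
    (max 60 (100 * Real.log W))), by positivity, ?_, fun L hL A w dv X hX hw => ?_⟩
  · exact hL1.trans ((le_max_left _ _).trans (le_max_left _ _))
  have hm := max_le_iff.1 hL
  have hm1 := max_le_iff.1 hm.1
  have hm2 := max_le_iff.1 hm1.2
  have hm5 := max_le_iff.1 hm.2
  have hm6 := max_le_iff.1 hm5.2
  have hL60 : 60 ≤ L := hm6.1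
  have hLpos : 0 < L := by linarith
  set z := Real.exp (1 / 60 * L) with hz
  set R := ∑ e ∈ (Icc 1 ⌊Real.exp (0.199 * L)⌋₊).filter Squarefree,
        rem A w dv g1 X e.primeFactors with hR
  have hrem0 : ∀ S, 0 ≤ rem A w dv g1 X S := rem_nonneg A w dv g1 X
  have hR0 : 0 ≤ R := sum_nonneg fun e _ => hrem0 _
  have hzz0 : z0 ≤ z := by
    rw [hz, ← Real.log_le_iff_le_exp (by linarith)]
    linarith [hm5.1]
  have hlz : Real.log z = 1 / 60 * L := Real.log_exp _
  obtain ⟨𝒰, ℒ, hU, hLL, hmain⟩ := hsieve z hzz0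
  obtain ⟨hlow, -⟩ := hmain A w dv X hX hw
  have hlowR : ∑ S ∈ ℒ, rem A w dv g1 X S ≤ R := by
    refine sum_family_le (rem A w dv g1 X) hrem0 _ ℒ fun S hS => ⟨fun q hq =>
      ((hLL S hS).1 q hq).1, ?_⟩
    apply Nat.le_floor
    have h3 := (hLL S hS).2
    have hWexp : W ≤ Real.exp (0.01 * L) := by
      rw [← Real.log_le_iff_le_exp (by linarith)]
      linarith [hm6.2]
    rw [hlz] at h3
    calc ((∏ q ∈ S, q : ℕ) : ℝ) ≤ W * Real.exp (8.878 * (1 / 60 * L)) := h3
      _ ≤ Real.exp (0.01 * L) * Real.exp (8.878 * (1 / 60 * L)) := by gcongr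
      _ = Real.exp ((0.01 + 8.878 / 60) * L) := by
          rw [← Real.exp_add]; congr 1; ring
      _ ≤ Real.exp (0.199 * L) := by
          rw [Real.exp_le_exp]
          exact mul_le_mul_of_nonneg_right (by norm_num) hLpos.le
  -- expand the weights
  have hexp : ∑ m ∈ A.filter (fun m => S1 dv z m), w m * W1 dv L m =
      ∑ m ∈ A.filter (fun m => S1 dv z m), w m - (2 / 5) *
        ∑ q ∈ PB z (Real.exp (0.182 * L)), (1 - Real.log q / (0.182 * L)) *
          ∑ m ∈ A.filter (fun m => S1 dv z m ∧ dv q m), w m := by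
    have hWt : ∀ m, W1 dv L m = 1 - (2 / 5) * ∑ q ∈ (PB z (Real.exp (0.182 * L))).filter
        (fun q => dv q m), (1 - Real.log q / (0.182 * L)) := fun m => rfl
    have hWt2 : ∀ m, w m * W1 dv L m = w m - w m * ((2 / 5) * ∑ q ∈ (PB z
        (Real.exp (0.182 * L))).filter (fun q => dv q m), (1 - Real.log q / (0.182 * L))) := by
      intro m
      rw [hWt m]; ring
    simp_rw [hWt2]
    rw [sum_sub_distrib]
    congr 1
    rw [mul_sum]
    have h1 : ∀ m, w m * (2 / 5 * ∑ q ∈ (PB z (Real.exp (0.182 * L))).filter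
        (fun q => dv q m), (1 - Real.log q / (0.182 * L))) =
        ∑ q ∈ PB z (Real.exp (0.182 * L)),
          if dv q m then 2 / 5 * (1 - Real.log q / (0.182 * L)) * w m else 0 := by
      intro m
      rw [← sum_filter, mul_sum, mul_sum]
      refine sum_congr rfl fun q _ => by ring
    simp_rw [h1]
    rw [sum_comm]
    refine sum_congr rfl fun q _ => ?_
    rw [← sum_filter, filter_filter, mul_sum, mul_sum]
    refine sum_congr rfl fun m _ => by ring
  rw [hexp]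
  have s1 := t1 L hm1.1 A w dv X hX hw
  have s2 := t2 L hm2.1 A w dv X hX hw
  have s3 := t3 L hm2.2 A w dv X hX hw
  rw [← hz, ← hR] at s1 s2 s3
  have hmono : ∀ {s t : ℝ}, s ≤ t → Real.exp (s * L) ≤ Real.exp (t * L) := fun h =>
    Real.exp_le_exp.2 (mul_le_mul_of_nonneg_right h hLpos.le)
  have hsplit : ∑ q ∈ PB z (Real.exp (0.182 * L)), (1 - Real.log q / (0.182 * L)) *
          ∑ m ∈ A.filter (fun m => S1 dv z m ∧ dv q m), w m ≤
      2.05 * (X * V g1 (PB 1 z)) + 3 * R := by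
    have e1 := hmono (show (1 / 60 : ℝ) ≤ 0.0925 by norm_num)
    have e2 := hmono (show (0.0925 : ℝ) ≤ 0.145 by norm_num)
    have e3 := hmono (show (0.145 : ℝ) ≤ 0.182 by norm_num)
    rw [← hz] at e1
    rw [sum_PB_add _ (Real.exp_pos _).le e1 (e2.trans e3),
      sum_PB_add _ (Real.exp_pos _).le e2 e3]
    have eV : 0 < V g1 (PB 1 z) := V1_pos fun q hq => (mem_filter.1 hq).2
    have eXV : 0 ≤ X * V g1 (PB 1 z) := by positivity
    have e6 := mul_le_mul_of_nonneg_right num_total1 eXV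
    linarith
  have hV := hVl z (by linarith)
  have hV' : cV / L ≤ V g1 (PB 1 z) := by
    refine le_trans ?_ hV
    rw [hlz]
    have : 1 / 60 * L ≤ L := by linarith
    exact div_le_div_of_nonneg_left hcV.le (by positivity) this
  have hfin : 0.01 * cV * X / L ≤ 0.01 * (X * V g1 (PB 1 z)) := by
    calc 0.01 * cV * X / L = 0.01 * (X * (cV / L)) := by ring
      _ ≤ _ := by gcongr
  have h20 := mul_le_mul_of_nonneg_left hsplit (by norm_num : (0 : ℝ) ≤ 2 / 5)
  have eV : 0 < V g1 (PB 1 z) := V1_pos fun q hq => (mem_filter.1 hq).2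
  have eXV : 0 ≤ X * V g1 (PB 1 z) := by positivity
  have h21 : 0.885 * X * V g1 (PB 1 z) = 0.885 * (X * V g1 (PB 1 z)) := by ring
  rw [h21] at hlow
  have h22 : (2 / 5 : ℝ) * (2.05 * (X * V g1 (PB 1 z)) + 3 * R) ≤
      0.82 * (X * V g1 (PB 1 z)) + 2 * R := by nlinarith
  linarith

end

end Pool.Agent.Work.MP_db5cd1_nt
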