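import Mathlib
import Pool.Agent.Work.MP_db5cd1_nt.Exc
import Pool.Agent.Work.MP_db5cd1_nt.Wgt

/-! Assembly: almost prime inverses of squares for almost all primes. -/

namespace Pool.Agent.Work.MP_db5cd1_nt

open Finset Pool.Agent.Work.MP_40574a_nt BrunHooley Mertens PA

noncomputable section

/-- the inverse of `k²` modulo `p` in `{1, ..., p - 1}` -/
def iv (p k : ℕ) : ℕ := (((k : ZMod p) ^ 2)⁻¹).val

lemma iv_spec {p k : ℕ} (hp : p.Prime) (hk : 0 < k) (hkp : k < p) :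
    k ^ 2 * iv p k ≡ 1 [MOD p] ∧ iv p k < p ∧ 0 < iv p k := by
  have : Fact p.Prime := ⟨hp⟩
  have : NeZero p := ⟨hp.ne_zero⟩
  have hk0 : (k : ZMod p) ≠ 0 := by
    intro h
    rw [ZMod.natCast_eq_zero_iff] at h
    exact absurd (Nat.le_of_dvd hk h) (by omega)
  have h1 : ((k ^ 2 * iv p k : ℕ) : ZMod p) = ((1 : ℕ) : ZMod p) := by
    unfold iv
    push_cast
    rw [ZMod.natCast_zmod_val, mul_inv_cancel₀ (pow_ne_zero 2 hk0)]
  have h2 : k ^ 2 * iv p k ≡ 1 [MOD p] := (ZMod.natCast_eq_natCast_iff _ _ _).1 h1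
  refine ⟨h2, ZMod.val_lt _, Nat.pos_of_ne_zero fun h0 => ?_⟩
  rw [h0, mul_zero] at h2
  have h3 : (0 : ℕ) % p = 1 % p := h2
  rw [Nat.zero_mod, Nat.mod_eq_of_lt hp.one_lt] at h3
  omega

lemma fc_iv {p k : ℕ} (hp : p.Prime) (hk : 0 < k) (hkp : k < p) {e : ℕ} :
    fc k e p = if e ∣ iv p k then 1 else 0 := by
  obtain ⟨h1, h2, h3⟩ := iv_spec hp hk hkp
  have hk2 : 0 < k ^ 2 := pow_pos hk 2
  have h4 : 1 ≤ k ^ 2 * iv p k := Nat.mul_pos hk2 h3
  obtain ⟨j, hj⟩ := (Nat.modEq_iff_dvd' h4).1 h1.symm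
  have hj' : k ^ 2 * iv p k = 1 + j * p := by
    rw [mul_comm j p]; omega
  have hjk : j < k ^ 2 := by
    have : j * p < k ^ 2 * p := by
      have : k ^ 2 * iv p k < k ^ 2 * p := Nat.mul_lt_mul_of_pos_left h2 hk2
      omega
    exact Nat.lt_of_mul_lt_mul_right this
  split_ifs with h
  · refine le_antisymm (fc_le_one p) ?_
    unfold fc
    rw [Nat.succ_le_iff, card_pos]
    refine ⟨j, mem_filter.2 ⟨mem_range.2 hjk, ?_⟩⟩
    rw [← hj', mul_comm]
    exact Nat.mul_dvd_mul_left _ h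
  · unfold fc
    rw [card_eq_zero, filter_eq_empty_iff]
    intro j' hj'r hd
    apply h
    have h5 := card_le_one.1 (fc_le_one (k := k) (d := 1) p)
    have h6 : j = j' := by
      refine h5 j (mem_filter.2 ⟨mem_range.2 hjk, ?_⟩) j' (mem_filter.2 ⟨hj'r, ?_⟩)
      · rw [← hj', one_mul]; exact Dvd.intro _ rfl
      · rw [one_mul]; exact (Dvd.intro_left _ rfl).trans hd
    rw [← h6, ← hj', mul_comm e] at hd
    exact Nat.dvd_of_mul_dvd_mul_left hk2 hd

/-- the divisibility predicate -/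
def dvp (p q k : ℕ) : Prop := q ∣ iv p k

open Classical in
lemma rem_eq {p : ℕ} (hp : p.Prime) (𝒦 : Finset ℕ) (h𝒦 : ∀ k ∈ 𝒦, 0 < k ∧ k < p) {e : ℕ}
    (he : Squarefree e) :
    rem 𝒦 (fun _ => (1 : ℝ)) (dvp p) g1 𝒦.card e.primeFactors = |GG 𝒦 e p| := by
  have hA : ∑ m ∈ 𝒦 with (∀ q ∈ e.primeFactors, dvp p q m), (1 : ℝ) =
      ∑ k ∈ 𝒦, (fc k e p : ℝ) := by
    rw [sum_filter]
    refine sum_congr rfl fun k hk => ?_
    rw [fc_iv hp (h𝒦 k hk).1 (h𝒦 k hk).2]
    have h1 : (∀ q ∈ e.primeFactors, dvp p q k) ↔ e ∣ iv p k := by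
      constructor
      · intro h
        rw [← Nat.prod_primeFactors_of_squarefree he]
        exact Finset.prod_primes_dvd _ (fun q hq => (Nat.prime_of_mem_primeFactors hq).prime) h
      · intro h q hq
        exact (Nat.dvd_of_mem_primeFactors hq).trans h
    by_cases h : e ∣ iv p k
    · rw [if_pos (h1.2 h), if_pos h]; simp
    · rw [if_neg (fun h' => h (h1.1 h')), if_neg h]; simp
  have hB : ∏ q ∈ e.primeFactors, g1 q = 1 / (e : ℝ) := by
    unfold g1
    rw [prod_div_distrib, prod_const_one, ← Nat.cast_prod, Nat.prod_primeFactors_of_squarefree he]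
  unfold rem GG
  rw [hA, hB, sum_sub_distrib, sum_const, nsmul_eq_mul]

/-- a large weight means few prime factors -/
lemma card_le_seven {dv : ℕ → ℕ → Prop} {L : ℝ} (hL : 0 < L) {m r : ℕ} (hr : 0 < r)
    (hrL : (r : ℝ) ≤ Real.exp L) (hdv : ∀ q, dv q m ↔ q ∣ r) (hS : S1 dv (Real.exp (1 / 60 * L)) m)
    (hW : 0 < W1 dv L m) : r.primeFactors.card ≤ 7 := by
  classical
  have hd0 : (0 : ℝ) < 0.182 * L := by positivity
  have h1 : ∑ q ∈ r.primeFactors, (1 - Real.log q / (0.182 * L)) ≤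
      ∑ q ∈ (PB (Real.exp (1 / 60 * L)) (Real.exp (0.182 * L))).filter (fun q => dv q m),
        (1 - Real.log q / (0.182 * L)) := by
    rw [← sum_filter_add_sum_filter_not r.primeFactors (fun q : ℕ => (q : ℝ) ≤ Real.exp (0.182 * L))]
    have h2 : ∑ q ∈ r.primeFactors.filter (fun q : ℕ => ¬ (q : ℝ) ≤ Real.exp (0.182 * L)),
        (1 - Real.log q / (0.182 * L)) ≤ 0 := by
      refine sum_nonpos fun q hq => ?_
      rw [mem_filter, not_le] at hq
      have h3 : 0.182 * L < Real.log q := by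
        rw [Real.lt_log_iff_exp_lt]
        · exact hq.2
        · exact (Real.exp_pos _).trans hq.2
      rw [sub_nonpos, one_le_div hd0]
      exact h3.le
    have h4 : r.primeFactors.filter (fun q : ℕ => (q : ℝ) ≤ Real.exp (0.182 * L)) =
        (PB (Real.exp (1 / 60 * L)) (Real.exp (0.182 * L))).filter (fun q => dv q m) := by
      ext q
      rw [mem_filter, mem_filter, mem_PB (Real.exp_pos _).le (Real.exp_pos _).le,
        Nat.mem_primeFactors, hdv]
      constructor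
      · rintro ⟨⟨hq, hqr, -⟩, hqy⟩
        refine ⟨⟨hq, ?_, hqy⟩, hqr⟩
        by_contra hcon
        exact hS q hq (not_lt.1 hcon) ((hdv q).2 hqr)
      · rintro ⟨⟨hq, -, hqy⟩, hqr⟩
        exact ⟨⟨hq, hqr, hr.ne'⟩, hqy⟩
    rw [h4]
    linarith
  have h2 : ∑ q ∈ r.primeFactors, (1 - Real.log q / (0.182 * L)) =
      r.primeFactors.card - (∑ q ∈ r.primeFactors, Real.log q) / (0.182 * L) := by
    rw [sum_sub_distrib, sum_const, nsmul_eq_mul, mul_one, sum_div]
  have h3 : ∑ q ∈ r.primeFactors, Real.log q ≤ L := by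
    rw [← Real.log_prod (s := r.primeFactors) (f := fun q => (q : ℝ)) (fun q hq => by
      have := (Nat.prime_of_mem_primeFactors hq).pos
      positivity), ← Nat.cast_prod]
    rw [Real.log_le_iff_le_exp]
    · refine le_trans ?_ hrL
      exact_mod_cast Nat.le_of_dvd hr (Nat.prod_primeFactors_dvd r)
    · have : 0 < ∏ q ∈ r.primeFactors, q := prod_pos fun q hq => (Nat.prime_of_mem_primeFactors hq).pos
      exact_mod_cast this
  have h4 : (∑ q ∈ r.primeFactors, Real.log q) / (0.182 * L) ≤ 5.495 := by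
    rw [div_le_iff₀ hd0]
    nlinarith
  unfold W1 at hW
  have h5 : (r.primeFactors.card : ℝ) < 8 := by
    have h6 : ∑ q ∈ (PB (Real.exp (1 / 60 * L)) (Real.exp (0.182 * L))).filter (fun q => dv q m),
        (1 - Real.log q / (0.182 * L)) < 5 / 2 := by
      have h7 : 2 / 5 * ∑ q ∈ (PB (Real.exp (1 / 60 * L)) (Real.exp (0.182 * L))).filter
        (fun q => dv q m), (1 - Real.log q / (0.182 * L)) < 1 := by linarith
      linarith
    linarith
  have h6 : r.primeFactors.card < 8 := by exact_mod_cast h5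
  omega

lemma W1_le_one {dv : ℕ → ℕ → Prop} {L : ℝ} (hL : 0 < L) (m : ℕ) : W1 dv L m ≤ 1 := by
  classical
  have hd0 : (0 : ℝ) < 0.182 * L := by positivity
  have : 0 ≤ ∑ q ∈ (PB (Real.exp (1 / 60 * L)) (Real.exp (0.182 * L))).filter (fun q => dv q m),
        (1 - Real.log q / (0.182 * L)) := by
    refine sum_nonneg fun q hq => ?_
    rw [mem_filter, mem_PB (Real.exp_pos _).le (Real.exp_pos _).le] at hq
    rw [sub_nonneg, div_le_one hd0, Real.log_le_iff_le_exp]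
    · exact hq.1.2.2
    · exact (Real.exp_pos _).trans hq.1.2.1
  unfold W1
  linarith

/-- the conclusion for one prime -/
def Good (p : ℕ) : Prop := ∃ T : Finset ℕ, (p : ℝ) ^ (0.19 : ℝ) ≤ T.card ∧ ∀ k ∈ T,
  k.Prime ∧ k ^ 5 ≤ p ∧ ∃ r : ℕ, 1 < r ∧ r < p ∧ k ^ 2 * r ≡ 1 [MOD p] ∧ Squarefree r ∧
    r.primeFactors.card ≤ 7 ∧ ∀ q : ℕ, q.Prime → q ∣ r → (p : ℝ) ^ (1 / 60 : ℝ) < q

lemma card_PB_ge : ∃ L1 : ℝ, 1 ≤ L1 ∧ ∀ L : ℝ, L1 ≤ L →
    0.00005 * Real.exp (0.1998 * L) ≤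
      ((PB (Real.exp (0.1998 * L)) (Real.exp (0.1999 * L))).card : ℝ) := by
  obtain ⟨C, hC, h⟩ := sum_log_bounds
  refine ⟨max 1 (20000 * C), le_max_left _ _, fun L hL => ?_⟩
  have hL1 : 1 ≤ L := (le_max_left _ _).trans hL
  have hL2 : 20000 * C ≤ L := (le_max_right _ _).trans hL
  have h1 := (abs_le.1 (h (Real.exp (0.1998 * L)) (Real.exp (0.1999 * L))
    (Real.one_le_exp (by positivity)) (Real.exp_le_exp.2 (by linarith)))).1
  rw [Real.log_exp, Real.log_exp] at h1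
  have h2 : ∑ p ∈ PB (Real.exp (0.1998 * L)) (Real.exp (0.1999 * L)), Real.log p / p ≤
      ∑ _p ∈ PB (Real.exp (0.1998 * L)) (Real.exp (0.1999 * L)), L / Real.exp (0.1998 * L) := by
    refine sum_le_sum fun p hp => ?_
    rw [mem_PB (Real.exp_pos _).le (Real.exp_pos _).le] at hp
    have hp0 : (0 : ℝ) < p := (Real.exp_pos _).trans hp.2.1
    have h3 : Real.log p ≤ L := by
      rw [Real.log_le_iff_le_exp hp0]
      exact hp.2.2.trans (Real.exp_le_exp.2 (by linarith))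
    exact div_le_div₀ (by linarith) h3 (Real.exp_pos _) hp.2.1.le
  rw [sum_const, nsmul_eq_mul] at h2
  have h3 : 0.00005 * L ≤
      ((PB (Real.exp (0.1998 * L)) (Real.exp (0.1999 * L))).card : ℝ) *
        (L / Real.exp (0.1998 * L)) := by
    linarith
  have he := Real.exp_pos (0.1998 * L)
  rw [← mul_div_assoc, le_div_iff₀ he] at h3
  have h4 : (0.00005 * Real.exp (0.1998 * L)) * L ≤
      ((PB (Real.exp (0.1998 * L)) (Real.exp (0.1999 * L))).card : ℝ) * L := by linarith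
  exact le_of_mul_le_mul_right h4 (by linarith)

open Classical in
lemma good_of : ∃ L1 : ℝ, 1 ≤ L1 ∧ ∀ (x : ℕ) (L : ℝ), (x : ℝ) = Real.exp L → L1 ≤ L →
    ∀ p : ℕ, p.Prime → p ≤ x → Real.exp (0.9996 * L) < p →
    EE (PB (Real.exp (0.1998 * L)) (Real.exp (0.1999 * L))) ⌊Real.exp (0.199 * L)⌋₊ p ≤
      Real.exp (0.1997 * L) →
    BS (PB (Real.exp (0.1998 * L)) (Real.exp (0.1999 * L))) (Real.exp (1 / 60 * L))
      (Real.exp (1 / 2 * L)) p ≤ Real.exp (0.1997 * L) → Good p := by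
  obtain ⟨c, L0, hc, hL0, hw⟩ := weighted1
  obtain ⟨L2, hL2, hcard⟩ := card_PB_ge
  refine ⟨max (max L0 L2) (2 * 10 ^ 13 / c), hL0.trans ((le_max_left _ _).trans (le_max_left _ _)),
    fun x L hx hL p hp hpx hpL hE hB => ?_⟩
  have hLL0 : L0 ≤ L := ((le_max_left _ _).trans (le_max_left _ _)).trans hL
  have hLL2 : L2 ≤ L := ((le_max_right _ _).trans (le_max_left _ _)).trans hL
  have hLc : 2 * 10 ^ 13 / c ≤ L := (le_max_right _ _).trans hL
  have hL1 : 1 ≤ L := hL0.trans hLL0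
  have hLpos : 0 < L := by linarith
  set A := Real.exp (0.1998 * L) with hA
  set B := Real.exp (0.1999 * L) with hBdef
  set 𝒦 := PB A B with h𝒦
  set D := ⌊Real.exp (0.199 * L)⌋₊ with hD
  set E := Real.exp (0.1997 * L) with hEdef
  set z := Real.exp (1 / 60 * L) with hz
  have hE0 : 0 < E := Real.exp_pos _
  have hA0 : 0 < A := Real.exp_pos _
  have hk : ∀ k ∈ 𝒦, k.Prime ∧ A < k ∧ (k : ℝ) ≤ B := fun k hk =>
    (mem_PB (Real.exp_pos _).le (Real.exp_pos _).le).1 hk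
  have hB5 : B ^ 5 = Real.exp (0.9995 * L) := by
    rw [hBdef, ← Real.exp_nat_mul]
    congr 1
    push_cast
    ring
  have hk5 : ∀ k ∈ 𝒦, k ^ 5 ≤ p := by
    intro k hk'
    have h1 : ((k : ℝ)) ^ 5 ≤ p := by
      calc (k : ℝ) ^ 5 ≤ B ^ 5 := by
            have := (hk k hk').2.2
            gcongr
        _ = Real.exp (0.9995 * L) := hB5
        _ ≤ Real.exp (0.9996 * L) := Real.exp_le_exp.2 (by linarith)
        _ ≤ p := hpL.le
    exact_mod_cast h1
  have hklt : ∀ k ∈ 𝒦, 0 < k ∧ k < p := by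
    intro k hk'
    have h1 := (hk k hk').1
    refine ⟨h1.pos, ?_⟩
    have h2 : k ^ 1 < k ^ 5 := Nat.pow_lt_pow_right h1.one_lt (by norm_num)
    rw [pow_one] at h2
    exact h2.trans_le (hk5 k hk')
  -- the sieve
  have h1 := hw L hLL0 𝒦 (fun _ => (1 : ℝ)) (dvp p) 𝒦.card (Nat.cast_nonneg _)
    (fun _ _ => zero_le_one)
  have hDp : ∀ e ∈ Icc 1 D, p.Coprime e := by
    intro e he
    rw [mem_Icc] at he
    rw [Nat.Prime.coprime_iff_not_dvd hp]
    intro hpe
    have h2 : p ≤ e := Nat.le_of_dvd (by omega) hpe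
    have h3 : (p : ℝ) ≤ Real.exp (0.199 * L) := by
      have h4 : (D : ℝ) ≤ Real.exp (0.199 * L) := Nat.floor_le (Real.exp_pos _).le
      have h5 : (p : ℝ) ≤ D := by exact_mod_cast h2.trans he.2
      linarith
    have h4 : Real.exp (0.199 * L) ≤ Real.exp (0.9996 * L) := Real.exp_le_exp.2 (by linarith)
    linarith
  have hR : ∑ e ∈ (Icc 1 D).filter Squarefree,
      rem 𝒦 (fun _ => (1 : ℝ)) (dvp p) g1 𝒦.card e.primeFactors ≤ E := by
    refine le_trans ?_ hE
    unfold EE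
    calc ∑ e ∈ (Icc 1 D).filter Squarefree,
          rem 𝒦 (fun _ => (1 : ℝ)) (dvp p) g1 𝒦.card e.primeFactors
        = ∑ e ∈ (Icc 1 D).filter Squarefree, |GG 𝒦 e p| :=
          sum_congr rfl fun e he => rem_eq hp 𝒦 hklt (mem_filter.1 he).2
      _ ≤ _ := by
          refine sum_le_sum_of_subset_of_nonneg ?_ fun _ _ _ => abs_nonneg _
          intro e he
          rw [mem_filter] at he ⊢
          exact ⟨he.1, hDp e he.1⟩
  have hmain : 5 * E ≤ c * 𝒦.card / L := by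
    have h2 := hcard L hLL2
    rw [← hA, ← hBdef, ← h𝒦] at h2
    have h3 : A = E * Real.exp (0.0001 * L) := by
      rw [hA, hEdef, ← Real.exp_add]; congr 1; ring
    have h4 : (0.0001 * L) ^ 2 / 2 ≤ Real.exp (0.0001 * L) := by
      have := Real.quadratic_le_exp_of_nonneg (x := 0.0001 * L) (by positivity)
      linarith [show (0 : ℝ) ≤ 0.0001 * L by positivity]
    rw [le_div_iff₀ hLpos]
    have h5 : 2 * 10 ^ 13 ≤ L * c := by
      rwa [div_le_iff₀ hc] at hLc
    calc 5 * E * L = E * L * 5 := by ring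
      _ ≤ E * L * (c * (0.00005 * ((0.0001 : ℝ) ^ 2 / 2)) * L) := by
          refine mul_le_mul_of_nonneg_left ?_ (by positivity)
          norm_num at h5 ⊢
          linarith
      _ = c * (0.00005 * (E * ((0.0001 * L) ^ 2 / 2))) := by ring
      _ ≤ c * (0.00005 * (E * Real.exp (0.0001 * L))) := by gcongr
      _ = c * (0.00005 * A) := by rw [h3]
      _ ≤ c * 𝒦.card := by gcongr
  have hsum : 2 * E ≤ ∑ m ∈ 𝒦.filter (fun m => S1 (dvp p) z m), W1 (dvp p) L m := by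
    simp only [one_mul] at h1
    rw [← hz, ← hD] at h1
    linarith
  set G := 𝒦.filter (fun k => S1 (dvp p) z k ∧ 0 < W1 (dvp p) L k) with hG
  have hGcard : 2 * E ≤ (G.card : ℝ) := by
    refine hsum.trans ?_
    calc ∑ m ∈ 𝒦.filter (fun m => S1 (dvp p) z m), W1 (dvp p) L m
        ≤ ∑ m ∈ 𝒦.filter (fun m => S1 (dvp p) z m), (if 0 < W1 (dvp p) L m then (1 : ℝ) else 0) := by
          refine sum_le_sum fun m _ => ?_
          split_ifs with h
          · exact W1_le_one hLpos m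
          · exact not_lt.1 h
      _ = (G.card : ℝ) := by
          rw [← sum_filter, filter_filter, hG, sum_const, nsmul_eq_mul, mul_one]
  -- squares
  set Sq := 𝒦.filter (fun k => ∃ l : ℕ, l.Prime ∧ z < l ∧ l ^ 2 ∣ iv p k) with hSq
  have hSqcard : (Sq.card : ℝ) ≤ E := by
    refine le_trans ?_ hB
    unfold BS
    calc (Sq.card : ℝ) = ∑ _k ∈ Sq, (1 : ℝ) := by rw [sum_const, nsmul_eq_mul, mul_one]
      _ ≤ ∑ k ∈ Sq, ∑ l ∈ Ioc ⌊z⌋₊ ⌊Real.exp (1 / 2 * L)⌋₊, (fc k (l ^ 2) p : ℝ) := by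
          refine sum_le_sum fun k hk' => ?_
          obtain ⟨hk𝒦, l, hl, hzl, hlr⟩ := mem_filter.1 hk'
          have h2 := fc_iv hp (hklt k hk𝒦).1 (hklt k hk𝒦).2 (e := l ^ 2)
          rw [if_pos hlr] at h2
          obtain ⟨-, h3, h4⟩ := iv_spec hp (hklt k hk𝒦).1 (hklt k hk𝒦).2
          have h5 : l ^ 2 ≤ x := (Nat.le_of_dvd h4 hlr).trans (h3.le.trans hpx)
          have h6 : (l : ℝ) ≤ Real.exp (1 / 2 * L) := by
            have h7 : (l : ℝ) ^ 2 ≤ (Real.exp (1 / 2 * L)) ^ 2 := by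
              rw [← Real.exp_nat_mul]
              have h8 : ((2 : ℕ) : ℝ) * (1 / 2 * L) = L := by push_cast; ring
              rw [h8, ← hx]
              exact_mod_cast h5
            exact (abs_le_of_sq_le_sq' h7 (Real.exp_pos _).le).2
          have h7 : l ∈ Ioc ⌊z⌋₊ ⌊Real.exp (1 / 2 * L)⌋₊ := by
            rw [mem_Ioc, Nat.floor_lt (Real.exp_pos _).le, Nat.le_floor_iff (Real.exp_pos _).le]
            exact ⟨hzl, h6⟩
          calc (1 : ℝ) = (fc k (l ^ 2) p : ℝ) := by rw [h2]; simp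
            _ ≤ _ := single_le_sum (f := fun l : ℕ => (fc k (l ^ 2) p : ℝ))
                (fun _ _ => Nat.cast_nonneg _) h7
      _ ≤ _ := sum_le_sum_of_subset_of_nonneg (filter_subset _ _)
          fun _ _ _ => sum_nonneg fun _ _ => Nat.cast_nonneg _
  refine ⟨G \ Sq, ?_, fun k hkT => ?_⟩
  · have h2 : (G.card : ℝ) ≤ ((G \ Sq).card : ℝ) + Sq.card := by
      have : G.card ≤ (G \ Sq).card + Sq.card := by
        rw [card_sdiff_add_card G Sq]
        exact card_le_card subset_union_left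
      exact_mod_cast this
    have h3 : (p : ℝ) ^ (0.19 : ℝ) ≤ E := by
      have hp0 : (0 : ℝ) ≤ p := Nat.cast_nonneg _
      have hpx' : (p : ℝ) ≤ Real.exp L := by rw [← hx]; exact_mod_cast hpx
      calc (p : ℝ) ^ (0.19 : ℝ) ≤ (Real.exp L) ^ (0.19 : ℝ) :=
            Real.rpow_le_rpow hp0 hpx' (by norm_num)
        _ = Real.exp (L * 0.19) := by rw [← Real.exp_mul]
        _ ≤ E := Real.exp_le_exp.2 (by linarith)
    linarith
  · rw [mem_sdiff] at hkT
    obtain ⟨hkG, hkS⟩ := hkT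
    obtain ⟨hk𝒦, hkS1, hkW⟩ := mem_filter.1 hkG
    obtain ⟨hkp, hkA, hkB⟩ := hk k hk𝒦
    obtain ⟨h2, h3, h4⟩ := iv_spec hp (hklt k hk𝒦).1 (hklt k hk𝒦).2
    have hrx : ((iv p k : ℕ) : ℝ) ≤ Real.exp L := by
      rw [← hx]; exact_mod_cast h3.le.trans hpx
    have hzq : ∀ q : ℕ, q.Prime → q ∣ iv p k → z < q := by
      intro q hq hqr
      by_contra hcon
      exact hkS1 q hq (not_lt.1 hcon) hqr
    refine ⟨hkp, hk5 k hk𝒦, iv p k, ?_, h3, h2, ?_, ?_, ?_⟩
    · rcases Nat.lt_or_ge 1 (iv p k) with h | h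
      · exact h
      · exfalso
        have h5 : iv p k = 1 := by omega
        rw [h5, mul_one] at h2
        have h6 : k ^ 2 < p := by
          have h7 : k ^ 2 < k ^ 5 := Nat.pow_lt_pow_right hkp.one_lt (by norm_num)
          exact h7.trans_le (hk5 k hk𝒦)
        have h7 := Nat.ModEq.eq_of_lt_of_lt h2 h6 hp.one_lt
        have h8 := hkp.two_le
        nlinarith
    · rw [Nat.squarefree_iff_prime_squarefree]
      intro q hq hqq
      apply hkS
      rw [hSq, mem_filter]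
      refine ⟨hk𝒦, q, hq, hzq q hq ((Dvd.intro _ rfl).trans hqq), ?_⟩
      rw [pow_two]; exact hqq
    · exact card_le_seven hLpos h4 hrx (fun q => Iff.rfl) hkS1 hkW
    · intro q hq hqr
      refine lt_of_le_of_lt ?_ (hzq q hq hqr)
      have hp0 : (0 : ℝ) ≤ p := Nat.cast_nonneg _
      have hpx' : (p : ℝ) ≤ Real.exp L := by rw [← hx]; exact_mod_cast hpx
      calc (p : ℝ) ^ (1 / 60 : ℝ) ≤ (Real.exp L) ^ (1 / 60 : ℝ) :=
            Real.rpow_le_rpow hp0 hpx' (by norm_num)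
        _ = Real.exp (L * (1 / 60)) := by rw [← Real.exp_mul]
        _ = z := by rw [hz]; congr 1; ring

end

end Pool.Agent.Work.MP_db5cd1_nt
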