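import Mathlib
import Pool.Agent.Work.MP_db5cd1_nt.Fin

/-! Counting the exceptional primes. -/

namespace Pool.Agent.Work.MP_db5cd1_nt

open Finset Pool.Agent.Work.MP_40574a_nt BrunHooley Mertens PA

noncomputable section

open Classical in
theorem count : ∃ C : ℝ, ∀ x : ℕ, 1 ≤ x →
    (((range (x + 1)).filter (fun p => p.Prime ∧ ¬ Good p)).card : ℝ) ≤
      C * (x : ℝ) ^ (0.9999 : ℝ) := by
  obtain ⟨L1, hL1, hgood⟩ := good_of
  refine ⟨max 24 (2 * Real.exp L1), fun x hx => ?_⟩
  have hx1 : (1 : ℝ) ≤ x := by exact_mod_cast hx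
  have hx0 : (0 : ℝ) < x := by linarith
  set L := Real.log x with hL
  have hxL : (x : ℝ) = Real.exp L := (Real.exp_log hx0).symm
  have hL0 : 0 ≤ L := Real.log_nonneg hx1
  have hpow : (x : ℝ) ^ (0.9999 : ℝ) = Real.exp (0.9999 * L) := by
    rw [hxL, ← Real.exp_mul]; congr 1; ring
  have hpow0 : 0 < Real.exp (0.9999 * L) := Real.exp_pos _
  rw [hpow]
  rcases le_or_gt L1 L with h | h
  · refine le_trans ?_ (mul_le_mul_of_nonneg_right (le_max_left _ _) hpow0.le)
    have hLpos : 0 < L := by linarith
    have hmono : ∀ {s t : ℝ}, s ≤ t → Real.exp (s * L) ≤ Real.exp (t * L) := fun h =>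
      Real.exp_le_exp.2 (mul_le_mul_of_nonneg_right h hLpos.le)
    set A := Real.exp (0.1998 * L) with hA
    set B := Real.exp (0.1999 * L) with hBdef
    set 𝒦 := PB A B with h𝒦
    set D := ⌊Real.exp (0.199 * L)⌋₊ with hD
    set E := Real.exp (0.1997 * L) with hEdef
    set z := Real.exp (1 / 60 * L) with hz
    have hE0 : 0 < E := Real.exp_pos _
    have hk : ∀ k ∈ 𝒦, k.Prime ∧ A < k ∧ (k : ℝ) ≤ B := fun k hk =>
      (mem_PB (Real.exp_pos _).le (Real.exp_pos _).le).1 hk
    have hcard : (𝒦.card : ℝ) ≤ B := by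
      have h1 : 𝒦.card ≤ ⌊B⌋₊ := by
        rw [h𝒦]
        unfold PB
        refine (card_le_card (filter_subset _ _)).trans ?_
        rw [Nat.card_Ioc]
        omega
      calc (𝒦.card : ℝ) ≤ (⌊B⌋₊ : ℝ) := by exact_mod_cast h1
        _ ≤ B := Nat.floor_le (Real.exp_pos _).le
    have hDle : (D : ℝ) ≤ Real.exp (0.199 * L) := Nat.floor_le (Real.exp_pos _).le
    have hA1 : 1 ≤ A := Real.one_le_exp (by positivity)
    have hB0 : 0 < B := Real.exp_pos _
    -- the three exceptional sets
    have e2 : (((range (x + 1)).filter (fun m => E < EE 𝒦 D m)).card : ℝ) ≤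
        16 * Real.exp (0.9999 * L) := by
      have hsum := sum_EE 𝒦 hA1 (D := D) (N := x) (B := B)
        (fun k hk' => ⟨(hk k hk').1, (hk k hk').2.1.le, (hk k hk').2.2⟩) hcard ?_ ?_ ?_ ?_ ?_
      · refine (markov _ _ (EE_nonneg 𝒦 D) hE0 hsum).trans ?_
        rw [div_le_iff₀ hE0]
        have h1 : √(B * D) ≤ Real.exp (0.19945 * L) := by
          rw [show Real.exp (0.19945 * L) = √(Real.exp (0.19945 * L) ^ 2) from
            (Real.sqrt_sq (Real.exp_pos _).le).symm]
          refine Real.sqrt_le_sqrt ?_
          calc B * D ≤ B * Real.exp (0.199 * L) := by gcongr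
            _ = Real.exp (0.3989 * L) := by rw [hBdef, ← Real.exp_add]; congr 1; ring
            _ = Real.exp (0.19945 * L) ^ 2 := by
                rw [← Real.exp_nat_mul]; congr 1; push_cast; ring
        calc 16 * (x : ℝ) * √(B * D) ≤ 16 * Real.exp L * Real.exp (0.19945 * L) := by
              rw [← hxL]; gcongr
          _ = 16 * Real.exp (1.19945 * L) := by
              rw [mul_assoc, ← Real.exp_add]; congr 2; ring
          _ ≤ 16 * Real.exp (1.1996 * L) := by
              have := hmono (show (1.19945 : ℝ) ≤ 1.1996 by norm_num)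
              linarith
          _ = 16 * Real.exp (0.9999 * L) * E := by
              rw [hEdef, mul_assoc, ← Real.exp_add]; congr 2; ring
      · refine hDle.trans_lt (Real.exp_lt_exp.2 ?_)
        linarith
      · have h1 : (D : ℝ) ≤ x := by
          refine hDle.trans ?_
          rw [hxL]
          exact Real.exp_le_exp.2 (by linarith)
        exact_mod_cast h1
      · calc B ^ 2 * D ≤ B ^ 2 * Real.exp (0.199 * L) := by gcongr
          _ = Real.exp (0.5988 * L) := by
              rw [hBdef, ← Real.exp_nat_mul, ← Real.exp_add]; congr 1; push_cast; ring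
          _ ≤ x := by
              rw [hxL]
              exact Real.exp_le_exp.2 (by linarith)
      · calc (D : ℝ) * B ≤ Real.exp (0.199 * L) * B := by gcongr
          _ = Real.exp (0.3989 * L) := by
              rw [hBdef, ← Real.exp_add]; congr 1; ring
          _ ≤ Real.exp (0.3996 * L) := hmono (by norm_num)
          _ = A ^ 2 := by
              rw [hA, ← Real.exp_nat_mul]; congr 1; push_cast; ring
      · calc B ^ 5 = Real.exp (0.9995 * L) := by
              rw [hBdef, ← Real.exp_nat_mul]; congr 1; push_cast; ring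
          _ ≤ x := by
              rw [hxL]
              exact Real.exp_le_exp.2 (by linarith)
    have e3 : (((range (x + 1)).filter (fun m => E < BS 𝒦 z (Real.exp (1 / 2 * L)) m)).card : ℝ) ≤
        5 * Real.exp (0.9999 * L) := by
      have hsum := sum_BS 𝒦 (B := B) (z := z) (y := Real.exp (1 / 2 * L)) hx
        (Real.one_le_exp (by positivity)) (hmono (by norm_num))
        (fun k hk' => ⟨(hk k hk').1, (hk k hk').2.2⟩) hcard
      refine (markov _ _ (BS_nonneg 𝒦 z _) hE0 hsum).trans ?_
      rw [div_le_iff₀ hE0]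
      have h1 : 4 * (x : ℝ) / z = 4 * Real.exp ((1 - 1 / 60) * L) := by
        rw [hxL, hz, mul_div_assoc, ← Real.exp_sub]; congr 2; ring
      have h2 : Real.exp (1 / 2 * L) * B ^ 2 ≤ Real.exp ((1 - 1 / 60) * L) := by
        rw [hBdef, ← Real.exp_nat_mul, ← Real.exp_add]
        refine Real.exp_le_exp.2 ?_
        push_cast
        linarith
      calc B * (4 * x / z + Real.exp (1 / 2 * L) * B ^ 2)
          ≤ B * (4 * Real.exp ((1 - 1 / 60) * L) + Real.exp ((1 - 1 / 60) * L)) := by
            rw [h1]; gcongr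
        _ = 5 * Real.exp ((0.1999 + (1 - 1 / 60)) * L) := by
            rw [add_mul (0.1999 : ℝ), Real.exp_add, hBdef]; ring
        _ ≤ 5 * Real.exp (1.1996 * L) := by
            have := hmono (show (0.1999 + (1 - 1 / 60) : ℝ) ≤ 1.1996 by norm_num)
            linarith
        _ = 5 * Real.exp (0.9999 * L) * E := by
            rw [hEdef, mul_assoc, ← Real.exp_add]; congr 2; ring
    have e1 : (((range (x + 1)).filter (fun m : ℕ => (m : ℝ) ≤ Real.exp (0.9996 * L))).card : ℝ) ≤
        2 * Real.exp (0.9999 * L) := by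
      have h1 : (range (x + 1)).filter (fun m : ℕ => (m : ℝ) ≤ Real.exp (0.9996 * L)) ⊆
          range (⌊Real.exp (0.9996 * L)⌋₊ + 1) := by
        intro m hm
        rw [mem_filter] at hm
        rw [mem_range]
        exact Nat.lt_succ_of_le (Nat.le_floor hm.2)
      have h2 := card_le_card h1
      rw [card_range] at h2
      calc (((range (x + 1)).filter (fun m : ℕ => (m : ℝ) ≤ Real.exp (0.9996 * L))).card : ℝ)
          ≤ (⌊Real.exp (0.9996 * L)⌋₊ : ℝ) + 1 := by exact_mod_cast h2
        _ ≤ Real.exp (0.9996 * L) + 1 := by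
            have := Nat.floor_le (Real.exp_pos (0.9996 * L)).le
            linarith
        _ ≤ 2 * Real.exp (0.9999 * L) := by
            have h3 := hmono (show (0.9996 : ℝ) ≤ 0.9999 by norm_num)
            have h4 : 1 ≤ Real.exp (0.9996 * L) := Real.one_le_exp (by positivity)
            linarith
    have hsub : (range (x + 1)).filter (fun p => p.Prime ∧ ¬ Good p) ⊆
        (range (x + 1)).filter (fun m : ℕ => (m : ℝ) ≤ Real.exp (0.9996 * L)) ∪
          ((range (x + 1)).filter (fun m => E < EE 𝒦 D m) ∪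
            (range (x + 1)).filter (fun m => E < BS 𝒦 z (Real.exp (1 / 2 * L)) m)) := by
      intro p hp
      rw [mem_filter] at hp
      obtain ⟨hpx, hpp, hpg⟩ := hp
      rw [mem_union, mem_union, mem_filter, mem_filter, mem_filter]
      by_contra hcon
      push Not at hcon
      obtain ⟨h1, h2, h3⟩ := hcon
      exact hpg (hgood x L hxL h p hpp (by rw [mem_range] at hpx; omega) (h1 hpx) (h2 hpx) (h3 hpx))
    have h5 := (card_le_card hsub).trans ((card_union_le _ _).trans
      (Nat.add_le_add_left (card_union_le _ _) _))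
    have h6 : (((range (x + 1)).filter (fun p => p.Prime ∧ ¬ Good p)).card : ℝ) ≤
        (((range (x + 1)).filter (fun m : ℕ => (m : ℝ) ≤ Real.exp (0.9996 * L))).card : ℝ) +
        ((((range (x + 1)).filter (fun m => E < EE 𝒦 D m)).card : ℝ) +
          (((range (x + 1)).filter (fun m => E < BS 𝒦 z (Real.exp (1 / 2 * L)) m)).card : ℝ)) := by
      exact_mod_cast h5
    linarith
  · refine le_trans ?_ (mul_le_mul_of_nonneg_right (le_max_right _ _) hpow0.le)
    have h1 : ((range (x + 1)).filter (fun p => p.Prime ∧ ¬ Good p)).card ≤ x + 1 := by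
      refine (card_le_card (filter_subset _ _)).trans ?_
      rw [card_range]
    calc (((range (x + 1)).filter (fun p => p.Prime ∧ ¬ Good p)).card : ℝ) ≤ x + 1 := by
          exact_mod_cast h1
      _ ≤ 2 * x := by linarith
      _ = 2 * Real.exp L := by rw [hxL]
      _ ≤ 2 * Real.exp (L1 + 0.9999 * L) := by
          have := Real.exp_le_exp.2 (show L ≤ L1 + 0.9999 * L by linarith)
          linarith
      _ = 2 * Real.exp L1 * Real.exp (0.9999 * L) := by rw [Real.exp_add]; ring

end

end Pool.Agent.Work.MP_db5cd1_nt
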