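import Mathlib

/-! Sums of periodic functions over intervals. -/

namespace Pool.Agent.Work.MP_db5cd1_nt

open Finset

/-- the product of two functions with coprime periods -/
lemma sum_periodic_mul {q q' : ℕ} (hc : q.Coprime q') (hq : 0 < q) (hq' : 0 < q') (g g' : ℕ → ℝ)
    (hg : ∀ t, g (t % q) = g t) (hg' : ∀ t, g' (t % q') = g' t) :
    ∑ t ∈ range (q * q'), g t * g' t = (∑ t ∈ range q, g t) * ∑ t ∈ range q', g' t := by
  rw [sum_mul_sum, ← sum_product']
  refine sum_nbij' (fun t => (t % q, t % q')) (fun p => (Nat.chineseRemainder hc p.1 p.2 : ℕ))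
    ?_ ?_ ?_ ?_ ?_
  · intro t _
    rw [mem_product, mem_range, mem_range]
    exact ⟨Nat.mod_lt _ hq, Nat.mod_lt _ hq'⟩
  · intro p _
    rw [mem_range]
    exact Nat.chineseRemainder_lt_mul hc _ _ hq.ne' hq'.ne'
  · intro t ht
    rw [mem_range] at ht
    have h1 := (Nat.chineseRemainder hc (t % q) (t % q')).2
    have h2 : (Nat.chineseRemainder hc (t % q) (t % q') : ℕ) ≡ t [MOD q] :=
      h1.1.trans (Nat.mod_modEq _ _)
    have h3 : (Nat.chineseRemainder hc (t % q) (t % q') : ℕ) ≡ t [MOD q'] :=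
      h1.2.trans (Nat.mod_modEq _ _)
    have h4 := (Nat.modEq_and_modEq_iff_modEq_mul hc).1 ⟨h2, h3⟩
    exact Nat.ModEq.eq_of_lt_of_lt h4 (Nat.chineseRemainder_lt_mul hc _ _ hq.ne' hq'.ne') ht
  · rintro ⟨a, b⟩ hp
    rw [mem_product, mem_range, mem_range] at hp
    have h1 := (Nat.chineseRemainder hc a b).2
    simp only
    rw [Prod.mk.injEq]
    have h2 : (Nat.chineseRemainder hc a b : ℕ) % q = a % q := h1.1
    have h3 : (Nat.chineseRemainder hc a b : ℕ) % q' = b % q' := h1.2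
    exact ⟨h2.trans (Nat.mod_eq_of_lt hp.1), h3.trans (Nat.mod_eq_of_lt hp.2)⟩
  · intro t _
    simp only
    rw [hg, hg']

lemma sum_range_mul_periodic {Q : ℕ} (F : ℕ → ℝ) (hF : ∀ t, F (t + Q) = F t) (n : ℕ) :
    ∑ t ∈ range (Q * n), F t = n * ∑ t ∈ range Q, F t := by
  have hF' : ∀ n t, F (Q * n + t) = F t := by
    intro n
    induction n with
    | zero => simp
    | succ n ih =>
      intro t
      rw [show Q * (n + 1) + t = Q * n + t + Q by ring, hF, ih]
  induction n with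
  | zero => simp
  | succ n ih =>
    rw [Nat.mul_succ, sum_range_add, ih]
    simp_rw [hF']
    push_cast
    ring

lemma sum_range_split {Q : ℕ} (F : ℕ → ℝ) (hF : ∀ t, F (t + Q) = F t) (T : ℕ) :
    ∑ t ∈ range T, F t = (T / Q : ℕ) * ∑ t ∈ range Q, F t + ∑ t ∈ range (T % Q), F t := by
  have hF' : ∀ n t, F (Q * n + t) = F t := by
    intro n
    induction n with
    | zero => simp
    | succ n ih =>
      intro t
      rw [show Q * (n + 1) + t = Q * n + t + Q by ring, hF, ih]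
  conv_lhs => rw [← Nat.div_add_mod T Q]
  rw [sum_range_add, sum_range_mul_periodic F hF]
  simp_rw [hF']

lemma abs_sum_range_le {Q : ℕ} (hQ : 0 < Q) (F : ℕ → ℝ) (hF : ∀ t, F (t + Q) = F t) (T : ℕ) :
    |∑ t ∈ range T, F t| ≤ T / Q * |∑ t ∈ range Q, F t| + ∑ t ∈ range Q, |F t| := by
  rw [sum_range_split F hF]
  refine (abs_add_le _ _).trans (add_le_add ?_ ?_)
  · rw [abs_mul, Nat.abs_cast]
    exact mul_le_mul_of_nonneg_right Nat.cast_div_le (abs_nonneg _)
  · refine (abs_sum_le_sum_abs _ _).trans ?_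
    exact sum_le_sum_of_subset_of_nonneg (range_subset_range.2 (Nat.mod_lt _ hQ).le)
      fun _ _ _ => abs_nonneg _

lemma sum_range_le {Q : ℕ} (hQ : 0 < Q) (F : ℕ → ℝ) (hF : ∀ t, F (t + Q) = F t)
    (h0 : ∀ t, 0 ≤ F t) (T : ℕ) :
    ∑ t ∈ range T, F t ≤ (T / Q + 1) * ∑ t ∈ range Q, F t := by
  have h1 := abs_sum_range_le hQ F hF T
  have h2 : ∑ t ∈ range Q, |F t| = ∑ t ∈ range Q, F t := sum_congr rfl fun t _ => abs_of_nonneg (h0 t)
  have h3 : |∑ t ∈ range Q, F t| = ∑ t ∈ range Q, F t := abs_of_nonneg (sum_nonneg fun t _ => h0 t)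
  rw [h2, h3] at h1
  have h4 := le_abs_self (∑ t ∈ range T, F t)
  linarith

/-- two functions with coprime periods over an interval -/
lemma abs_sum_mul_le {q q' : ℕ} (hc : q.Coprime q') (hq : 0 < q) (hq' : 0 < q') (g g' : ℕ → ℝ)
    (hg : ∀ t, g (t % q) = g t) (hg' : ∀ t, g' (t % q') = g' t) (T : ℕ) :
    |∑ t ∈ range T, g t * g' t| ≤
      T / (q * q') * (|∑ t ∈ range q, g t| * |∑ t ∈ range q', g' t|) +
        (∑ t ∈ range q, |g t|) * ∑ t ∈ range q', |g' t| := by
  have hp : ∀ t, g (t + q * q') * g' (t + q * q') = g t * g' t := by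
    intro t
    rw [← hg (t + q * q'), ← hg' (t + q * q'), Nat.add_mul_mod_self_left,
      Nat.add_mul_mod_self_right, hg, hg']
  have h1 := abs_sum_range_le (Nat.mul_pos hq hq') (fun t => g t * g' t) hp T
  rw [sum_periodic_mul hc hq hq' g g' hg hg', abs_mul] at h1
  have h2 : ∑ t ∈ range (q * q'), |g t * g' t| =
      (∑ t ∈ range q, |g t|) * ∑ t ∈ range q', |g' t| := by
    rw [← sum_periodic_mul hc hq hq' (fun t => |g t|) (fun t => |g' t|) (fun t => by rw [hg])
      (fun t => by rw [hg'])]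
    exact sum_congr rfl fun t _ => abs_mul _ _
  rw [h2] at h1
  push_cast at h1
  exact h1

end Pool.Agent.Work.MP_db5cd1_nt
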